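import Pool.Agent.Helper60.T3.GoalsI
import Pool.Agent.Helper92.UQ.Main
import Pool.Agent.Helper12.SGB.All
import Pool.Agent.Helper30.SGT.NZ1
import Pool.Agent.Helper90.T3.SUBF
import Pool.Agent.Helper85.T3.DADD
import Pool.Agent.Helper79.T3.DEX
import Pool.Agent.Helper91.T3.TORS
import Pool.Agent.Helper38.T3.DIV
import Pool.Agent.Helper73.T3.ELM
import Pool.Agent.Helper46.T3.GENQ
import Pool.Agent.Helper17.T3.IRRD
import Pool.Agent.Helper34.T3.FDEG
import Pool.Agent.Helper52.T3.CFACT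
import Pool.Agent.Helper48.T3.CLAM
import Pool.Agent.Helper18.T3.CASA
import Pool.Agent.Helper44.T3.CASB
import Pool.Agent.Helper14.T3.AIP
import Pool.Agent.Helper71.T3.AIW
import Pool.Agent.Helper7.T3.CRV
import Pool.Agent.Helper15.T3.SPC
import Pool.Agent.Helper89.T3.SLP
import Pool.Agent.Helper33.T3.INDR

/-!
# Project T3 (MP_a41896_nt): IND and LEAF (assembly)
-/

set_option autoImplicit false

namespace Pool.Agent.Helper60.T3

open Pool.Agent.Helper42.SG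

theorem th_SUBF : S_SUBF := Pool.Agent.Helper90.T3.SUBF.t

theorem th_DADD : S_DADD := Pool.Agent.Helper85.T3.DADD.t

theorem th_NZ1 : NZ1 :=
  Pool.Agent.Helper30.SGT.t_NZ1 Pool.Agent.Helper12.SGB.th_RPOL Pool.Agent.Helper12.SGB.th_EDUP

theorem th_DEX : S_DEX := Pool.Agent.Helper79.T3.DEX.t Pool.Agent.Helper38.UQ.DERF.t

theorem th_TORS : S_TORS :=
  Pool.Agent.Helper91.T3.TORS.t th_SUBF th_NZ1 Pool.Agent.Helper12.SGB.th_EDUP
    Pool.Agent.Helper12.SGB.th_ELAW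

theorem th_ELM : S_ELM := Pool.Agent.Helper73.T3.ELM.t

theorem th_GENQ : S_GENQ := Pool.Agent.Helper46.T3.GENQ.t

theorem th_IRRD : S_IRRD := Pool.Agent.Helper17.T3.IRRD.t th_GENQ

theorem th_FDEG : S_FDEG := Pool.Agent.Helper34.T3.FDEG.t th_SUBF

theorem th_CFACT : S_CFACT := Pool.Agent.Helper52.T3.CFACT.t th_DADD th_DEX th_GENQ

theorem th_CLAM : S_CLAM :=
  Pool.Agent.Helper48.T3.CLAM.t th_FDEG th_IRRD th_GENQ th_ELM th_DADD

theorem th_CASA : S_CASA := Pool.Agent.Helper18.T3.CASA.t th_ELM th_TORS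

theorem th_CASB : S_CASB :=
  Pool.Agent.Helper44.T3.CASB.t th_ELM th_TORS Pool.Agent.Helper38.T3.DIV.t th_DADD th_SUBF

theorem th_AIP : S_AIP := Pool.Agent.Helper14.T3.AIP.t th_SUBF

theorem th_CRV : S_CRV := Pool.Agent.Helper7.T3.CRV.t th_AIP th_CFACT th_CLAM th_CASA th_CASB

/-- **Theorem IND** -/
theorem th_IND : S_IND :=
  Pool.Agent.Helper33.T3.INDR.t th_CRV (Pool.Agent.Helper71.T3.AIW.t th_AIP)
    Pool.Agent.Helper15.T3.SPC.t Pool.Agent.Helper89.T3.SLP.t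

/-- **Theorem LEAF** -/
theorem th_LEAF : S_LEAF := by
  intro K _ _ σ _ _ β hβ hβ' _ n i' hn Ω _ _ _ ξ
  exact Pool.Agent.Helper92.UQ.Main.th_LEAFN K σ β (fun i => ⟨hβ i, hβ' i⟩) n i' hn Ω ξ

end Pool.Agent.Helper60.T3
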