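import Pool.Agent.Helper60.HC.GoalsP
import Pool.Agent.Helper19.PM.Goals

/-!
# Project T3 (MP_a41896_nt): all centres of codimension `≥ 2` in products of three elliptic curves

INTERFACE: P1M = `Helper19.PM.S_P1M`; statements of P3 (helper68, helper92), IND (helper60), LEAF (helper42), the small goals of the
assembly (END, helper60), and the theorem for `|σ| = 3`.  Notation: `Lo`, `Al`, `xs`, `nrs` of `Helper60.HC.GoalsP`;
`Ax`, `blkB`, `mapS` of `Helper68.VN.Defs`.
-/

set_option autoImplicit false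

open MvPolynomial

namespace Pool.Agent.Helper60.T3

open WeierstrassCurve Height Height.AdmissibleAbsValues
open Pool.Agent.Helper29.BL Pool.Agent.Helper92.Ru Pool.Agent.Helper42.SG
open Pool.Agent.Helper5.UN (hv CodimGT cH)
open Pool.Agent.Helper60.HC (Lo Al xs nrs)
open Pool.Agent.Helper68.VN (mapS Ax blkB)
open Pool.Agent.Helper19.PM (cW wU AlW S_P1M)

noncomputable section

/-! ## Definitions -/

section defs

/-- the square of the `i`-th component of the normal vector of `h = 0` at `x` (`d/dz_i = ψ_i ∂/∂X_i`) -/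
def NN {K : Type} [Field K] {σ : Type} (W : σ → Affine K) (h : MvPolynomial σ K) (x : σ → K)
    (i : σ) : K := Bf (W i) (x i) * eval x (pderiv i h) ^ 2

/-- the squares of the slopes of `h = 0` are the constants `n i / n k`, for the curves `Ψ_i² = β_i(X_i)` -/
def FlatB {K : Type} [Field K] {σ : Type} (β : σ → Polynomial K) (n : σ → K)
    (h : MvPolynomial σ K) : Prop :=
  ∀ i k, h ∣ C (n k) * (Polynomial.aeval (X i) (β i) * pderiv i h ^ 2) -
    C (n i) * (Polynomial.aeval (X k) (β k) * pderiv k h ^ 2)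

/-- `B_i` (chart `true`), and `s⁴ B_i(1/s)` (chart `false`) -/
def bch {K : Type} [Field K] {σ : Type} (W : σ → Affine K) (a : σ → Bool) (i : σ) :
    Polynomial K :=
  if a i = true then 4 * Polynomial.X ^ 3 + Polynomial.C (W i).b₂ * Polynomial.X ^ 2 +
      2 * Polynomial.C (W i).b₄ * Polynomial.X + Polynomial.C (W i).b₆
  else 4 * Polynomial.X + Polynomial.C (W i).b₂ * Polynomial.X ^ 2 +
      2 * Polynomial.C (W i).b₄ * Polynomial.X ^ 3 + Polynomial.C (W i).b₆ * Polynomial.X ^ 4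

/-- `FlatB` for elliptic curves -/
abbrev Flat {K : Type} [Field K] {σ : Type} (W : σ → Affine K) (n : σ → K)
    (h : MvPolynomial σ K) : Prop :=
  FlatB (bch W fun _ => true) n h

/-- `h` in the chart `a`: `X_i ↦ X_i` (`a i = true`) or `X_i ↦ 1/X_i`, multiplied by `X_i ^ degreeOf i h` (`a i = false`) -/
def rv {K : Type} [Field K] {σ : Type} [Fintype σ] (a : σ → Bool) (h : MvPolynomial σ K) :
    MvPolynomial σ K :=
  hv C (fun i => h.degreeOf i) h fun i => if a i = true then ![X i, 1] else ![1, X i]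

/-- the maximum of the absolute values of the coefficients -/
def mc {K : Type} [Field K] {σ : Type} (v : AbsoluteValue K ℝ) (h : MvPolynomial σ K) : ℝ :=
  ⨆ m : σ →₀ ℕ, v (coeff m h)

end defs

/-! ## The theorems of the captains -/

/-- **P3**: one point `z = x 0` near the centre, two points `x2`, `x0` on surfaces of slow height with different
tangent planes. -/
def S_P3 : Prop :=
  ∀ (K : Type) [Field K] [NumberField K] [DecidableEq K] (σ : Type) [Fintype σ] [DecidableEq σ]
    (W : σ → Affine K), (∀ i, (W i).IsElliptic) → ∀ (H : ∀ i, (W i).Point → ℝ) (c₀ : ℝ),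
    (∀ i, CanH (W i) (H i) c₀) → Fintype.card σ = 3 → ∀ (D : ℕ) (J : Type) [Fintype J]
    (f : J → MvPolynomial σ K), (∀ j i, degreeOf i (f j) ≤ D) → CodimGT D f 1 →
    ∀ (ε : ℝ) (D0 : ℕ) (C0 : ℝ), 0 < ε → 0 ≤ C0 →
    ∃ (D' : ℕ) (C' θ K0 : ℝ), 0 < θ ∧ 0 ≤ C' ∧
      ∀ (i' : σ) (x : Fin 1 → ∀ i, (W i).Point) (x2 x0 : ∀ i, (W i).Point) (e : Fin 1 → ℕ)
        (e2 : ℕ) (T : ℝ) (h2 h0 : MvPolynomial σ K), Al H D f 1 θ ε K0 x x0 e T →
        (∀ i, x2 i ≠ 0 ∧ ps (x2 i) ≠ 0) → (4 : ℝ) ^ e2 * nrs H x2 ≤ 2 * T →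
        nrs H ((2 ^ e2) • x2 - x0) ≤ θ * T → K0 ≤ (4 : ℝ) ^ e2 →
        K0 * (4 : ℝ) ^ e2 ≤ 4 ^ e 0 → Irreducible h2 → Irreducible h0 →
        (∀ i, degreeOf i h2 ≤ D0) → (∀ i, degreeOf i h0 ≤ D0) →
        Real.log (PH h2) ≤ C0 * (4 ^ e 0 / 4 ^ e2) → Real.log (PH h0) ≤ C0 * 4 ^ e 0 →
        eval (xs x2) h2 = 0 → eval (xs x0) h0 = 0 →
        (∃ i0, NN W h2 (xs x2) i0 * NN W h0 (xs x0) i' ≠
          NN W h0 (xs x0) i0 * NN W h2 (xs x2) i') →
        Lo Finset.univ D' C' (xs (x 0)) ∨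
          Lo (Finset.univ.erase i') D' (C' * (4 ^ e 0 / 4 ^ e2)) (xs x2) ∨
          Lo (Finset.univ.erase i') D' (C' * 4 ^ e 0) (xs x0)

/-- **IND** (independence on `{h2 = 0} × {h0 = 0}`). The array `c` has entries in `K`, no `X_i'` (exponent `0`), and exponents `< η q` of
`X_i0`, `q = 4 ^ e`; the exponents of the other `X_i` are `< q`, those of the laws of ALL coordinates (also `i'`) are `≤ M`. `x2, x0` are `K`-rational points of the
surfaces at which the (squares of the) slopes in the plane `(i0, i')` differ. CONCLUSION: the block function does not vanish at ANY generic point of ANY component, with any signs (`Ψ`, `Ψ0` are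
arbitrary square roots). `η` depends on `D0` only. Proof: `Helper60/T3/GoalsI.lean`. -/
def S_IND : Prop :=
  ∀ D0 : ℕ, ∃ η : ℝ, 0 < η ∧
    ∀ (K : Type) [Field K] [CharZero K] (σ : Type) [Fintype σ] [DecidableEq σ]
      (W : σ → Affine K), (∀ i, (W i).IsElliptic) → ∀ (h2 h0 : MvPolynomial σ K) (i0 i' : σ),
      i0 ≠ i' → Irreducible h2 → Irreducible h0 → (∀ i, degreeOf i h2 ≤ D0) →
      (∀ i, degreeOf i h0 ≤ D0) → degreeOf i' h2 ≠ 0 → degreeOf i' h0 ≠ 0 →
      ∀ x2 x0 : σ → K, eval x2 h2 = 0 → eval x0 h0 = 0 →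
      NN W h2 x2 i0 * NN W h0 x0 i' ≠ NN W h0 x0 i0 * NN W h2 x2 i' →
      ∀ (M e : ℕ) (c : Ax σ M e → K), c ≠ 0 →
      (∀ α, c α ≠ 0 → (α i').1.val = 0 ∧ ((α i0).1.val : ℝ) < η * 4 ^ e) →
      ∀ (Ω : Type) [Field Ω] [Algebra K Ω] [IsAlgClosed Ω] (X Ψ X0 Ψ0 : σ → Ω),
        (∀ i, Ψ i ^ 2 = Bf (mapS Ω W i) (X i)) → (∀ i, Ψ0 i ^ 2 = Bf (mapS Ω W i) (X0 i)) →
        aeval X h2 = 0 → aeval X0 h0 = 0 →
        AlgebraicIndependent K
          (Sum.elim (fun i : {i : σ // i ≠ i'} => X i) (fun i : {i : σ // i ≠ i'} => X0 i)) →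
        ∑ α : Ax σ M e, algebraMap K Ω (c α) *
          blkB (mapS Ω W) M e (fun _ => false) X Ψ X0 Ψ0 α ≠ 0

/-- **LEAF** (helper42, helper92, helper11): finitely many flat surfaces with given slopes contain a given point. The polynomials `β i` are arbitrary squarefree
polynomials (at infinity the curve `Ψ² = B(X)` becomes `ρ² = β(s)`, `s = 1/X`, `ρ = Ψ/X²`).
Proved by helper92: `Helper92/UQ` (LEAFN, without the hypothesis on the cardinality). PROOF (helper11, 56223). (a) The irreducible factors of some `β_i(X_i)` satisfy the divisibility for every `n`: put the `β_i(X_i)` into `F`. (b) `h` not dividing any `β_i(X_i)`: the primes `p` of `R = Ω[X, ψ]/(ψ_i² - β_i)` over `h` are unramified, so `p R_p = (h)`, and `∂h ∈ p` gives `∂p ⊆ p` for the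
derivations `∂` of the plane field. (c) `ψ_(i') ∂h/∂X_(i') ∉ p`, else all `ψ_i ∂_i h ∈ p`, so `h ∣ ∂_i h`, `∂_i h = 0` for all `i` (here `n i' ≠ 0` is used). (d) choose any lift of `ξ` and a minimal prime `p` over `h` inside its maximal ideal; `X_i ↦ X_i(P_i + L_i(u))` (flows of the derivations `∂_i X_i = ψ_i`,
`∂_i ψ_i = β_i'/2`, defined also where `ψ_i(P) = 0`); `L_1, L_2, L_3` have rank 2, two of the images are algebraically independent (nonconstant power series in independent linear forms: `β_i` squarefree), the kernel of `K[X] → Ω[[u_1, u_2]]` is a prime of height `1`, `= (h)`; at most 4 sign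
patterns up to `±`: `F = {β_i(X_i)} ∪` 4 elements. -/
def S_LEAF : Prop :=
  ∀ (K : Type) [Field K] [CharZero K] (σ : Type) [Fintype σ] [DecidableEq σ]
    (β : σ → Polynomial K), (∀ i, Squarefree (β i)) → (∀ i, (β i).natDegree ≠ 0) →
    Fintype.card σ = 3 → ∀ (n : σ → K) (i' : σ), n i' ≠ 0 →
    ∀ (Ω : Type) [Field Ω] [Algebra K Ω] [IsAlgClosed Ω] (ξ : σ → Ω),
    ∃ F : Finset (MvPolynomial σ K), (∀ g ∈ F, g ≠ 0) ∧
      ∀ h : MvPolynomial σ K, Irreducible h → FlatB β n h → aeval ξ h = 0 → ∃ g ∈ F, h ∣ g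

/-! ## Small goals of the assembly -/

/-- **ULT**: the sequence and the ultrafilter (sec. END). Hypotheses allowed: CLS (`Helper42.SG`; landed `Helper54.SGM.t_CLS`).
`R θ K x y` := `K H(x) ≤ H(y)` and `2^e x` is `θ`-near `y` for some `e`.
PROOF. `MvPolynomial σ K` is countable (`K` is a number field: `Countable K`, algebraic over ℚ; `MvPolynomial.countable`-type instance); let `P_0, P_1, ..` be an enumeration. By the hypothesis (applied to `Z = ∏_(i ≤ k, P_i ≠ 0) P_i` and `R = k`) choose `y_k ∈ Γ` with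
`Ex (y_k)`, `Z(y_k) ≠ 0`, `H(y_k) > k`. `U := Filter.hyperfilter ℕ`. (gen) `Z = P_i ≠ 0` vanishes only at `y_k`, `k < i` (cofinite sets are in `U`). (big) clear. (al) suppose that it is not true that for `U`-almost all `i`, for `U`-almost all `j`, `R θ K (y_i) (y_j)`. `U` is an ultrafilter:
for almost all `i`, for almost all `j`, not `R θ K (y_i) (y_j)`; and always: for almost all `j`, `K H(y_i) ≤ H(y_j)`, `H(y_i) ≤ H(y_j)`. So for almost all `i`, almost all `j`: `H(y_i) ≤ H(y_j)` and there is no `e` with `H(2^e y_i - y_j) ≤ θ² H(y_j)`. By induction choose `i_0, .., i_N` (`N` of CLS for `θ`) such that this holds for all pairs `a < b`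
(choose `i_0` in the set `A` of the `i` with `∀ᶠ j, Q i j`, then `i_1 ∈ A ∩ {Q i_0}`, ..). CLS for `m = N` and the sequence `z_a = y_(i_(min a N))` (constant after `N`): two of the `N + 1` indices have the same colour: contradiction. -/
def S_ULT : Prop :=
  ∀ (K : Type) [Field K] [NumberField K] (σ : Type) [Fintype σ] (G : Type) [AddCommGroup G]
    (Γ : AddSubgroup G), Γ.FG → ∀ (H : G → ℝ), IsQuad H → ∀ (X : G → σ → K) (Ex : G → Prop),
    (∀ (Z : MvPolynomial σ K) (R : ℝ), Z ≠ 0 →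
      ∃ z ∈ Γ, Ex z ∧ eval (X z) Z ≠ 0 ∧ R ≤ H z) →
    ∃ (y : ℕ → G) (U : Ultrafilter ℕ), (∀ k, y k ∈ Γ ∧ Ex (y k)) ∧
      (∀ Z : MvPolynomial σ K, Z ≠ 0 → ∀ᶠ k in (U : Filter ℕ), eval (X (y k)) Z ≠ 0) ∧
      (∀ R : ℝ, ∀ᶠ k in (U : Filter ℕ), R ≤ H (y k)) ∧
      ∀ θ K0 : ℝ, 0 < θ → ∀ᶠ i in (U : Filter ℕ), ∀ᶠ j in (U : Filter ℕ),
        K0 * H (y i) ≤ H (y j) ∧ ∃ e : ℕ, H ((2 ^ e) • y i - y j) ≤ θ ^ 2 * H (y j)

/-- **EXTR**: extraction. PROOF. Induction on `n` as in ULT. -/
def S_EXTR : Prop :=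
  ∀ (U : Ultrafilter ℕ) (P : ℕ → Prop) (Q : ℕ → ℕ → Prop), (∀ᶠ i in (U : Filter ℕ), P i) →
    (∀ᶠ i in (U : Filter ℕ), ∀ᶠ j in (U : Filter ℕ), Q i j) → ∀ n : ℕ,
    ∃ g : ℕ → ℕ, (∀ a ≤ n, P (g a)) ∧ ∀ a b, a < b → b ≤ n → Q (g a) (g b)

/-- **FACT**: an irreducible relation of small height. No hypotheses.
PROOF. `g ≠ 0`, `g(x) = 0`: factor `g` into irreducibles (`MvPolynomial` over a field is a UFD), one factor `h` vanishes at `x`. `degreeOf i h ≤ degreeOf i g` (`h ∣ g`, domain). Height of a factor: Gelfond's inequality `log PH h ≤ log PH (h h') + C(D)`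
(landed: used in the proof of FAC, see `Pool/Agent/*/Ru`, `PH_mul`-type lemmas `PHFAC`/`GelfondPH`; `Pool/Agent/Helper92/Ru/GoalsR.lean`). -/
def S_FACT : Prop :=
  ∀ (K : Type) [Field K] [NumberField K] (σ : Type) [Fintype σ] [DecidableEq σ] (D : ℕ),
    ∃ C : ℝ, 0 ≤ C ∧ ∀ (g : MvPolynomial σ K) (x : σ → K), g ≠ 0 → (∀ i, g.degreeOf i ≤ D) →
      eval x g = 0 → ∃ h : MvPolynomial σ K, Irreducible h ∧ (∀ i, h.degreeOf i ≤ D) ∧
        eval x h = 0 ∧ h ∣ g ∧ Real.log (PH h) ≤ Real.log (PH g) + C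

/-- **MC**: coefficients and heights. No hypotheses.
PROOF. `PH h = mulHeight` of the family of the nonzero coefficients (`Height.mulHeight_eq`: product over the archimedean absolute values (with multiplicities) and finprod over the nonarchimedean ones of the maxima). (1) `h` has a coefficient `1`: `mc v h ≥ 1` (the family of all `v (coeff m h)` is
bounded, it has finitely many nonzero values; `mc v h` is the maximum over the support), `log PH h = PS (log mc)`, `FS`: all but finitely many `v` have `v (coeff m h) ≤ 1` for the finitely many coefficients; `logHeight₁ (coeff m h)` is the sum of `log max 1 (v (coeff m h)) ≤ log mc v h`.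
(2) `PS` is monotone and `v(coeff) ≤ S v`, `log PH R = PS (log mc v R) ≤ PS (log S)` (`R ≠ 0`: all the maxima are positive). (3) `mulHeight_smul_eq_mulHeight`-type lemma, `c ≠ 0`, the supports are the same. -/
def S_MC : Prop :=
  ∀ (K : Type) [Field K] [NumberField K] (σ : Type),
    (∀ h : MvPolynomial σ K, (∃ m, coeff m h = 1) →
      PlC (fun v => mc v h) ∧ PS (fun v => Real.log (mc v h)) = Real.log (PH h) ∧
      ∀ m, logHeight₁ (coeff m h) ≤ Real.log (PH h)) ∧
    (∀ (v : AbsoluteValue K ℝ) (h : MvPolynomial σ K) m, v (coeff m h) ≤ mc v h) ∧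
    (∀ (R : MvPolynomial σ K) (S : AbsoluteValue K ℝ → ℝ), R ≠ 0 → PlC S →
      (∀ v m, v (coeff m R) ≤ S v) → Real.log (PH R) ≤ PS (fun v => Real.log (S v))) ∧
    ∀ (c : K) (h : MvPolynomial σ K), c ≠ 0 → PH (C c * h) = PH h

/-- **RL**: the resultant of two polynomials with respect to `X_k` with formal degrees `a k, b k ≥ 1`, nonvanishing and the exact local inequality. No hypotheses.
DEFINITION. `p = ∑_t p_t X_k^t`, `h = ∑_t h_t X_k^t`, `p_t, h_t` free of `X_k` (for instance `p_t = ∑_(m k = t) coeff_m(p) X^(m with m k := 0)`), `A = a k`, `H = b k`. `R := det Y`, `Y` = the Sylvester matrix, of size `A + H`, indexed by `Fin (A + H)`: the rows `s < H` are `(p_(t - s))_t`, the rows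
`H + s`, `s < A`, are `(h_(t - s))_t` (an entry is `0` if `t < s` or `t - s` is greater than `A`, resp. `H`); up to a transpose / sign this is Mathlib's `Polynomial.sylvester` / `Polynomial.resultant (f := p in K[..][X_k]) A H`.
DEGREES in `X_l`, `l ≠ k`: every product in the determinant has `H` entries of degree `≤ a l` and `A` entries of degree `≤ b l`; more precisely all is multihomogeneous: for pairs `y` let `p_t(y) := hv` of `p_t` with the exponents `a l` (`l ≠ k`), the same for `h_t` with `b l`; then the `hv` of the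
determinant with the exponents `b k * a l + a k * b l` is the determinant of the matrix with the entries `p_t(y)`, `h_t(y)` (`hv` with exponents is additive and multiplicative: `hv (E+E') (fg) = hv E f * hv E' g`, `G_HVB`-type lemma of Helper5.UN or direct).
NONVANISHING: if this is `0` at `y` over `Ω`: the binary forms `P(u) = ∑ p_t(y) u_0^t u_1^(A-t)`, `Q(u) = ∑ h_t(y) u_0^t u_1^(H-t)` have resultant (formal degrees `A, H ≥ 1`) zero; so they have a common zero `u ≠ 0`: if `p_A(y) = h_H(y) = 0` take `u = (1, 0)`; otherwise, by symmetry `p_A(y) ≠ 0`, say;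
`P(X, 1)` has exact degree `A`, the resultant is `± p_A^H ∏_(roots ζ) Q(ζ, 1)`-like (`resultant_eq_prod_eval`, or: if `P(X,1)`, `Q(X,1)` were coprime then, using `resultant_add_right_deg` to pass to the true degree of `Q(X,1)`, `resultant_ne_zero`), so there is a common root `ζ`, `u = (ζ, 1)`
(`Ω` algebraically closed, `A ≥ 1`; if `Q(X,1) = 0` any root of `P(X,1)`).
COEFFICIENTS: products of `H` coefficients of `p` and `A` coefficients of `h`, a bounded number of products: `v (coeff m R) ≤ B v (mc v p)^H (mc v h)^A` with `B v = 1` (nonarchimedean `v`), `B v = c(N)` (archimedean: use `cst`-type functions, `PlC` as in the other files). The maxima with `1` are for convenience.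
LOCAL INEQUALITY. `x : σ → K`, `M = Mv v (x k)`. The matrix `Y(x)` applied to the vector `(x_k^t)_t` is the vector with the entries `p(x) x_k^s` (`s < H`), `h(x) x_k^s` (`s < A`). Cramer (`Matrix.adjugate_mul`): `det Y(x) * x_k^t = ∑_rows adjugate(t, row) * entry(row)`. Take `t = 0` if `v(x_k) ≤ 1` and `t = A + H - 1`
if `v(x_k) > 1`: so `v(R(x)) M^(A+H-1) ≤ cst * max(adj) * max (v(p(x)) M^(H-1), v(h(x)) M^(A-1))` in both cases, and `v(adjugate) ≤ B v max(1, mc v p)^H max(1, mc v h)^A ∏_(l ≠ k) Mv v (x l)^(b k * a l + a k * b l)`: an entry of the adjugate is a signed minor: a sum of products of at most `H` entries `p_t(x)` and at most `A`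
entries `h_t(x)`, and `v(p_t(x)) ≤ cst * mc v p * ∏_(l ≠ k) Mv v (x l)^(a l)`. Divide by `M^(A+H-1)`: `M^(H-1)/M^(A+H-1) = 1/M^A`. -/
def S_RL : Prop :=
  ∀ (K : Type) [Field K] [NumberField K] (σ : Type) [Fintype σ] [DecidableEq σ] (N : ℕ),
    ∃ B : AbsoluteValue K ℝ → ℝ, PlC B ∧ ∀ (k : σ) (a b : σ → ℕ) (p h : MvPolynomial σ K),
      (∀ l, a l ≤ N ∧ b l ≤ N) → 1 ≤ a k → 1 ≤ b k → (∀ l, p.degreeOf l ≤ a l) →
      (∀ l, h.degreeOf l ≤ b l) →
      ∃ R : MvPolynomial σ K,
        (∀ l, R.degreeOf l ≤ if l = k then 0 else b k * a l + a k * b l) ∧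
        (∀ (Ω : Type) [Field Ω] [Algebra K Ω] [IsAlgClosed Ω] (y : σ → Fin 2 → Ω),
          hv (algebraMap K Ω) (fun l => if l = k then 0 else b k * a l + a k * b l) R y = 0 →
          ∃ u : Fin 2 → Ω, u ≠ 0 ∧ hv (algebraMap K Ω) a p (Function.update y k u) = 0 ∧
            hv (algebraMap K Ω) b h (Function.update y k u) = 0) ∧
        (∀ (v : AbsoluteValue K ℝ) m, v (coeff m R) ≤
          B v * max 1 (mc v p) ^ b k * max 1 (mc v h) ^ a k) ∧
        ∀ (v : AbsoluteValue K ℝ) (x : σ → K), v (eval x R) ≤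
          B v * max 1 (mc v p) ^ b k * max 1 (mc v h) ^ a k *
            (∏ l ∈ Finset.univ.erase k, Mv v (x l) ^ (b k * a l + a k * b l)) *
            max (v (eval x p) / Mv v (x k) ^ a k) (v (eval x h) / Mv v (x k) ^ b k)

/-- **RESL**: two coprime relations give a relation without `X_i'`. Hypotheses allowed: RL, MC.
PROOF. If `degreeOf i' h = 0` take `h` itself (`Lo (univ.erase i')`), if `degreeOf i' g = 0` take `g`. Otherwise RL with `k = i'`, `p = g / c_g`, `h / c_h` (divide by a nonzero coefficient; `mc ≥ 1`, MC (1), (3)), `a l = degreeOf l g`, `b l = degreeOf l h` (`N = D`): `R(x) = 0` by the local inequality (right side `0`, one `v` is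
enough: `v y = 0` iff `y = 0`), degrees `≤ 2 D²`, no `X_i'`, `log PH R ≤ C (1 + log PH g + log PH h)` by MC (2) with `S v = B v * mc(g)^D * mc(h)^D`. `R ≠ 0`: otherwise take `Ω` = algebraic closure of the fraction field of `MvPolynomial σ K`, `y_l = (X_l, 1)`: common zero `u`; `u_1 ≠ 0` because the leading coefficient of
`h` with respect to `X_i'` is a nonzero polynomial in the `X_l` (`b i'` is the exact degree); so `h(X, ζ) = g(X, ζ) = 0`, `ζ = u_0/u_1` (the variable `X_i'` replaced by `ζ`), and `h` is irreducible and involves `X_i'`: by Gauss `h ∣ g`, contradiction. (Or: `R` is a nonzero multiple of the resultant: landed RNZ, `Pool/Agent/Helper69/SGA/RNZ.lean`.) -/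
def S_RESL : Prop :=
  ∀ (K : Type) [Field K] [NumberField K] (σ : Type) [Fintype σ] [DecidableEq σ] (D : ℕ),
    ∃ (D' : ℕ) (C : ℝ), 0 ≤ C ∧ ∀ (h g : MvPolynomial σ K) (x : σ → K) (i' : σ) (A : ℝ),
      Irreducible h → g ≠ 0 → ¬ h ∣ g → (∀ i, h.degreeOf i ≤ D) → (∀ i, g.degreeOf i ≤ D) →
      eval x h = 0 → eval x g = 0 → Real.log (PH h) ≤ A → Real.log (PH g) ≤ A → 0 ≤ A →
      Lo (Finset.univ.erase i') D' (C * (1 + A)) x

/-- **MOV**: the moving centre (two resultants). `p` in the variables `i, k`, `q` in the variables `i, i'`, all three different. Hypotheses allowed: RL, MC.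
PROOF. `E ≥ 1`. `t := RatFunc.X ∈ Ω = AlgebraicClosure (RatFunc K)`. `Ξ` := all `(a, ξ)` with `a i = true`, `ξ i = t`, and for `l = k, i'`: (`a l = true`, `ξ l` any element of `Ω`) or (`a l = false`, `ξ l = 0`), such that the forms vanish: with the pairs `y_l = (ξ_l, 1)` (`a l = true`), `(1, ξ_l)` (`a l = false`):
`hv .. (fun _ => E) p y = 0`, `hv .. (fun _ => E) q y = 0`. `Ξ` is finite: `hv E p` is a nonzero binary form in the pair `y_k` (`p ≠ 0`, `t` transcendental over `K`; `p` has no `X_i'`). Every pair `u ≠ 0` is proportional to a unique `(ξ, 1)` or `(1, 0)`.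
Let `h` be irreducible, `d_l = degreeOf l h ≤ D`; replace `h` by `h / c`, `c` a nonzero coefficient (Irreducible, PH, rv up to the factor, the zeros do not change), so `mc v h ≥ 1`.
CONSTRUCTION of `R₁` in `X_i, X_i'`: if `d_k = 0` `R₁ := h`, `N₁ := d_i'`; otherwise `R₁ :=` RL for `k`, `p` (`a = E` on `i, k` and `0` on `i'`), `h` (`b = d`); `N₁ := E d_i'`. Then `r₀ := R₁` if `N₁ = 0`, otherwise `r₀ :=` RL for `i'` and `q` (`a = E` on `i, i'`, `0` on `k`), `R₁` (`b i' = N₁`, `b i = ` the bound of the degree).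
If `r₀ = 0`: (NV) of RL with `y_i = (t, 1)` gives (if `N₁ ≥ 1`) `u' ≠ 0` with `q(t, u') = 0`, `R₁(t, u') = 0` (forms), (if `N₁ = 0`) `R₁(t) = 0`, take for `u'` any zero of the form `q(t, .)` of degree `E ≥ 1`; then `R₁(t, u') = 0` gives (`d_k ≥ 1`) `u ≠ 0` with `p(t, u) = 0`, `h(t, u, u') = 0`, (`d_k = 0`): any zero `u` of `p(t, .)`;
normalise `u, u'`: the first alternative, `aeval ξ (rv a h)` is the value of the form of `h` at the pairs.
If `r₀ ≠ 0`: `r := r₀ / c_r`, `c_r` a nonzero coefficient. LOCAL at `x` with `h(x) = 0`: `v(R₁(x)) ≤ B mc(p)^.. mc(h)^.. M_i^(..) M_i'^(N₁) v(p(x)) / M_k^E` (the second entry of the maximum is `0`; if `d_k = 0` then `R₁(x) = 0`), so `v(r₀(x)) ≤ B' S' M_i^(..) max (v(q(x)) / M_i'^E, v(R₁(x)) / M_i'^(N₁))`, and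
`v(R₁(x)) / M_i'^(N₁) ≤ .. M_i^(..+E) v(p(x)) / (M_i M_k)^E`, `v(q(x)) / M_i'^E = M_i^E v(q(x)) / (M_i M_i')^E`. `S v :=` (constant)`(mc v h)^(..) / v(c_r)`, which is `≥ 1` because `v(c_r) ≤` the bound of the coefficients; `PS (log S)`: the product formula for `c_r` (`PS_log`), MC (1). Coefficients: `logHeight₁ (coeff m r) ≤ log PH r = log PH r₀`,
MC (1), (2), (3). (`PlC` of products, powers, quotients by `v c`.) `D'` = a common bound of the exponents of `M_i`, which are `≥` the degree. -/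
def S_MOV : Prop :=
  ∀ (K : Type) [Field K] [NumberField K] (σ : Type) [Fintype σ] [DecidableEq σ] (i k i' : σ),
    i ≠ k → i ≠ i' → k ≠ i' → Fintype.card σ = 3 → ∀ (E D : ℕ) (p q : MvPolynomial σ K),
    1 ≤ E → p ≠ 0 → q ≠ 0 → (∀ l, p.degreeOf l ≤ E) → (∀ l, q.degreeOf l ≤ E) →
    p.degreeOf i' = 0 → q.degreeOf k = 0 →
    ∃ (D' : ℕ) (C' : ℝ) (Ξ : Finset ((σ → Bool) × (σ → AlgebraicClosure (RatFunc K)))), 0 ≤ C' ∧
      ∀ h : MvPolynomial σ K, Irreducible h → (∀ l, h.degreeOf l ≤ D) →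
        (∃ z ∈ Ξ, aeval z.2 (rv z.1 h) = 0) ∨
        ∃ (r : MvPolynomial σ K) (S : AbsoluteValue K ℝ → ℝ), r ≠ 0 ∧
          (∀ l, r.degreeOf l ≤ if l = i then D' else 0) ∧
          (∀ m, logHeight₁ (coeff m r) ≤ C' * (1 + Real.log (PH h))) ∧ PlC S ∧
          PS (fun v => Real.log (S v)) ≤ C' * (1 + Real.log (PH h)) ∧
          ∀ (v : AbsoluteValue K ℝ) (x : σ → K), eval x h = 0 →
            v (eval x r) ≤ S v * Mv v (x i) ^ D' *
              max (v (eval x p) / (Mv v (x i) * Mv v (x k)) ^ E)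
                (v (eval x q) / (Mv v (x i) * Mv v (x i')) ^ E)

/-- **LEAFC**: LEAF for points which may be at infinity. Hypothesis allowed: LEAF.
PROOF. `β := bch W a`: `β i` is `B_i`, or `s⁴ B_i(1/s)`; both are of degree `≥ 3` or `4` or at least not constant (`4 s + ..`) and squarefree because `W i` is elliptic (discriminant; `B_i` has three different roots in an algebraic closure; `s⁴ B(1/s) = s · (reverse of B)`, degree of `B` is exactly `3`; the reverse of a squarefree polynomial is squarefree, and `s` does not divide the reverse of `B`: its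
constant coefficient is `4 ≠ 0`). Let `h` be irreducible, `Flat W n h`, `aeval ξ (rv a h) = 0`. RULES for the reversal: `rv a (g h) = rv a g * rv a h` (degrees in each variable add up in a domain), `rv a (rv a g) * X^(..) = g` i.e. `g = rv a (rv a g) * ∏_(a l = false) X_l^(m_l)`, `X_l^(m_l)` the exact power of `X_l` dividing `g`.
`h` is not associated to some `X_l` with `a l = false` (then `rv a h` would be a nonzero constant), so no such `X_l` divides `h`, `rv a (rv a h) = h` and `h* := rv a h` is irreducible (a factorisation of `h*` gives one of `h`; `h*` is not a unit: value `0`). `FlatB β n h*`: let `d_l = degreeOf l h`, `ρ` = the substitution `X_l ↦ 1/X_l` (`a l = false`),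
`X_l ↦ X_l` in the fraction field; `h* = (∏_(a l = false) X_l^(d_l)) ρ(h)`, so modulo `h*` (in the localisation at the `X_l`): `∂_k h* = ∏ X^(d) * ρ(∂_k h) * (-1/X_k²)` (`a k = false`), so `β_k(X_k) (∂_k h*)² = ∏ X^(2d) * ρ(B_k (∂_k h)²)` modulo `h*` in all cases (`X_k⁴ B_k(1/X_k) / X_k⁴`); hence
`∏ X^(2d) ρ(n_k B_i (∂_i h)² - n_i B_k (∂_k h)²) = n_k β_i (∂_i h*)² - n_i β_k (∂_k h*)²` modulo `h*` in the localisation, the left side is `0` modulo `h*` there, and `X_l ∤ h*`, `h*` prime, so `h*` divides the right side in `K[X]`. LEAF (for `β`, `ξ`) gives `F`; `h* ∣ g ∈ F`, `h = rv a h* ∣ rv a g`; so `{rv a g : g ∈ F}` works (`rv a g ≠ 0`). -/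
def S_LEAFC : Prop :=
  ∀ (K : Type) [Field K] [CharZero K] (σ : Type) [Fintype σ] [DecidableEq σ] (W : σ → Affine K),
    (∀ i, (W i).IsElliptic) → Fintype.card σ = 3 → ∀ (n : σ → K) (i' : σ), n i' ≠ 0 →
    ∀ (Ω : Type) [Field Ω] [Algebra K Ω] [IsAlgClosed Ω] (a : σ → Bool) (ξ : σ → Ω),
    ∃ F : Finset (MvPolynomial σ K), (∀ g ∈ F, g ≠ 0) ∧
      ∀ h : MvPolynomial σ K, Irreducible h → Flat W n h → aeval ξ (rv a h) = 0 →
        ∃ g ∈ F, h ∣ g

/-! ## The theorem -/

/-- **MAIN3**: theorem `(*)` for `|σ| = 3` and all centres of codimension `≥ 2`. -/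
def S_MAIN3 : Prop :=
  ∀ (K : Type) [Field K] [NumberField K] [DecidableEq K] (σ : Type) [Fintype σ] [DecidableEq σ]
    (W : σ → Affine K), (∀ i, (W i).IsElliptic) → ∀ Γ : ∀ i, AddSubgroup (W i).Point,
    (∀ i, (Γ i).FG) → ∀ (D : ℕ) (ι : Type) [Fintype ι] (f : ι → MvPolynomial σ K),
    (∀ j i, degreeOf i (f j) ≤ D) → CodimGT D f 1 → Fintype.card σ = 3 →
    ∀ ε : ℝ, 0 < ε → ∃ (Z : MvPolynomial σ K) (c : ℝ), Z ≠ 0 ∧ 0 ≤ c ∧
      ∀ z : ∀ i, (W i).Point, (∀ i, z i ∈ Γ i) → (∀ i, z i ≠ 0) → eval (xs z) Z ≠ 0 →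
        cH D f (xs z) ≤ ε * ∑ i, hx (z i) + c

end

end Pool.Agent.Helper60.T3
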