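import Pool.Agent.Helper60.T3.End5
import Pool.Agent.Helper60.T3.Ind
import Pool.Agent.Helper60.HC.Main3
import Pool.Agent.Helper68.T3.Main
import Pool.Agent.Helper68.VN.Main
import Pool.Agent.Helper19.PM.Main
import Pool.Agent.Helper13.SGE.QTR
import Pool.Agent.Helper54.SGM.CLS
import Pool.Agent.Helper12.T3.ULT
import Pool.Agent.Helper83.T3.EXTR
import Pool.Agent.Helper22.T3.FACT
import Pool.Agent.Helper8.T3.MC
import Pool.Agent.Helper41.T3.RL
import Pool.Agent.Helper64.T3.RESL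
import Pool.Agent.Helper77.T3.LEAFC
import Pool.Agent.Helper66.T3.HTF
import Pool.Agent.Helper78.T3.PHC
import Pool.Agent.Helper26.T3.RST
import Pool.Agent.Helper57.T3.CWB
import Pool.Agent.Helper39.T3.MOV

/-!
# Project T3 (MP_a41896_nt): the theorem for three elliptic curves (assembly)
-/

set_option autoImplicit false

namespace Pool.Agent.Helper60.T3

theorem th_MC : S_MC := Pool.Agent.Helper8.T3.MC.t

theorem th_RL : S_RL := Pool.Agent.Helper41.T3.RL.t

theorem th_RESL : S_RESL := Pool.Agent.Helper64.T3.RESL.t th_RL th_MC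

theorem th_LEAFC : S_LEAFC := Pool.Agent.Helper77.T3.LEAFC.t th_LEAF

theorem th_P3 : S_P3 := Pool.Agent.Helper68.T3.th_P3 th_IND th_RESL

/-- the theorem for three curves, from MOV -/
theorem main3_mod (hMOV : S_MOV) : S_MAIN3 :=
  main3_of Pool.Agent.Helper29.BL.th_can Pool.Agent.Helper12.SGB.th_EUP
    Pool.Agent.Helper68.VN.th_P1 Pool.Agent.Helper68.VN.th_P2 th_P3
    Pool.Agent.Helper19.PM.th_P1M Pool.Agent.Helper60.HC.th_PRJ Pool.Agent.Helper60.HC.th_NORT
    Pool.Agent.Helper60.HC.th_LOR Pool.Agent.Helper60.HC.th_QPI Pool.Agent.Helper60.HC.th_CHB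
    Pool.Agent.Helper60.HC.th_ELOC2 Pool.Agent.Helper13.SGE.qtr
    (Pool.Agent.Helper12.T3.ULT.t Pool.Agent.Helper54.SGM.t_CLS) Pool.Agent.Helper83.T3.EXTR.t
    Pool.Agent.Helper22.T3.FACT.t th_RESL (Pool.Agent.Helper66.T3.HTF.t th_MC) hMOV th_LEAFC
    Pool.Agent.Helper26.T3.RST.t Pool.Agent.Helper78.T3.PHC.t Pool.Agent.Helper57.T3.CWB.t

theorem th_MOV : S_MOV := Pool.Agent.Helper39.T3.MOV.t th_RL th_MC

/-- **the theorem for three elliptic curves** -/
theorem th_MAIN3 : S_MAIN3 := main3_mod th_MOV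

end Pool.Agent.Helper60.T3
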