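import Pool.Agent.Helper60.T3.Defs
import Pool.Agent.Helper92.UQ.Goals
import Pool.Agent.Helper42.SG.GoalsT

/-!
# Project T3 (MP_a41896_nt): IND, independence on `{h2 = 0} × {h0 = 0}`

The curve lemma CRV: `k` algebraically closed, `a = (a2, a3)` on a curve `g = 0`, `b = (b2, b3)` on a curve `g' = 0` (in the `x`-coordinates), `a2`, `b2` independent generic,
`w_j = 2^e a_j - b_j`; different slopes.  Then `x(a2)` has degree `≥ η 4^e` over `k(x(w2), x(w3))`.
PROOF (derivation): `κ` = algebraic closure of `k(x(w2))`, `D` the derivation over `κ` with `D x(a2) / ψ(a2) = 1`; `z' (P) = D x(P) / ψ(P)` is additive; `z'(w3) = 2^e z'(a3) - z'(b3)`,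
`z'(b2) = 2^e`.  If `x(a2)` has degree `d` over `κ(x(w3))` then `z'(w3)` and (slopes!) `z'(b3)`, `x(b2)` are related to `x(a2)` by polynomials of degree `≤ C d` in `x(a2)`, but
`x(b2) = x(2^e a2 - w2)`, so this degree is `≥ 4^e`.  If the slope of `b` is constant: `w3 = 2^e (a3 - R0) - c`, `c` a constant point, and one uses `x(a3 - R0)` instead of `x(a2)`.

Landed theorems which may be used everywhere: EDUP, ELAW, RPOL (`Pool/Agent/Helper12/SGB/All.lean`: `th_EDUP`, `th_ELAW`, `th_RPOL`), NZ1 (statement in `Helper42/SG/GoalsT.lean`), `Helper92.UQ.DERF`.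
-/

set_option autoImplicit false

open MvPolynomial

namespace Pool.Agent.Helper60.T3

open WeierstrassCurve
open Pool.Agent.Helper29.BL Pool.Agent.Helper92.Ru Pool.Agent.Helper42.SG
open Pool.Agent.Helper68.VN (mapS Ax blkB)

noncomputable section

/-! ## Definitions -/

section defs

/-- the curve over `L` -/
abbrev WL {k : Type} [Field k] (L : Type) [Field L] [Algebra k L] (W : Affine k) : Affine L :=
  W.map (algebraMap k L)

/-- `z'(P) = D x(P) / ψ(P)` (`0` if `ψ(P) = 0`) -/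
def zd {L : Type} [Field L] (D : L → L) {W : Affine L} (P : W.Point) : L := D (xc P) / ps P

/-- the coordinates of `P` are in `F` -/
def IP {L : Type} [Field L] {W : Affine L} (F : Set L) (P : W.Point) : Prop :=
  P = 0 ∨ (xc P ∈ F ∧ ps P ∈ F)

/-- a polynomial relation between `f` and `x` of degree `≤ u` in `f` and `≤ v` in `x` -/
def Rel (κ : Type) [Field κ] {L : Type} [Field L] [Algebra κ L] (f x : L) (u v : ℕ) : Prop :=
  ∃ P : MvPolynomial (Fin 2) κ, P ≠ 0 ∧ P.degreeOf 0 ≤ u ∧ P.degreeOf 1 ≤ v ∧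
    aeval ![f, x] P = 0

variable {k : Type} [Field k] {L : Type} [Field L] [Algebra k L]

/-- `B_2(x) (∂_0 g)(x, y)²` -/
def N0c (W2 : Affine k) (g : MvPolynomial (Fin 2) k) (x y : L) : L :=
  Bf (WL L W2) x * aeval ![x, y] (pderiv 0 g) ^ 2

/-- `B_3(y) (∂_1 g)(x, y)²` -/
def N1c (W3 : Affine k) (g : MvPolynomial (Fin 2) k) (x y : L) : L :=
  Bf (WL L W3) y * aeval ![x, y] (pderiv 1 g) ^ 2

/-- the data of the curve lemma over `κ` -/
structure CD (κ : Type) [Field κ] [Algebra κ L] [DecidableEq L] (W2 W3 : Affine k) (D0 e : ℕ)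
    (g g' : MvPolynomial (Fin 2) k) (a2 b2 : (WL L W2).Point) (a3 b3 : (WL L W3).Point) :
    Prop where
  irr : Irreducible g
  irr' : Irreducible g'
  deg : ∀ i, g.degreeOf i ≤ D0
  deg' : ∀ i, g'.degreeOf i ≤ D0
  pos : g.degreeOf 1 ≠ 0
  pos' : g'.degreeOf 1 ≠ 0
  a2n : a2 ≠ 0
  b2n : b2 ≠ 0
  a3n : a3 ≠ 0
  b3n : b3 ≠ 0
  tra : Transcendental κ (xc a2)
  trb : Transcendental κ (xc b2)
  on : aeval ![xc a2, xc a3] g = 0
  on' : aeval ![xc b2, xc b3] g' = 0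
  kw : IP (Set.range (algebraMap κ L)) ((2 ^ e) • a2 - b2)
  nw : 2 • ((2 ^ e) • a2 - b2) ≠ 0
  slo : N0c W2 g (xc a2) (xc a3) * N1c W3 g' (xc b2) (xc b3) ≠
    N0c W2 g' (xc b2) (xc b3) * N1c W3 g (xc a2) (xc a3)

/-- the derivation of the curve lemma -/
structure DF (κ : Type) [Field κ] [Algebra κ L] [DecidableEq L] (W2 W3 : Affine k) (e : ℕ)
    (g g' : MvPolynomial (Fin 2) k) (a2 b2 : (WL L W2).Point) (a3 b3 : (WL L W3).Point)
    (D : Derivation κ L L) : Prop where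
  one : zd D a2 = 1
  ker : ∀ z : L, IsAlgebraic (IntermediateField.adjoin κ {xc a2}) z → D z = 0 →
    z ∈ Set.range (algebraMap κ L)
  zb2 : zd D b2 = 2 ^ e
  zw3 : zd D ((2 ^ e) • a3 - b3) = 2 ^ e * zd D a3 - zd D b3
  ea : zd D a3 ^ 2 * N1c W3 g (xc a2) (xc a3) = N0c W2 g (xc a2) (xc a3)
  na : N1c W3 g (xc a2) (xc a3) ≠ 0
  eb : zd D b3 ^ 2 * N1c W3 g' (xc b2) (xc b3) = 4 ^ e * N0c W2 g' (xc b2) (xc b3)
  nb : N1c W3 g' (xc b2) (xc b3) ≠ 0
  ne : 4 ^ e * zd D a3 ^ 2 ≠ zd D b3 ^ 2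

end defs

/-! ## Points, derivations, the degree `4^e` -/

/-- **SUBF**: points with coordinates in an intermediate field. No hypotheses.
PROOF. `P ≠ 0`: `P = (x, y)`, `ψ = 2y + a₁ x + a₃`, so (characteristic `0`) `x, ψ ∈ F` iff `x, y ∈ F` (the `a_i` are in `F`); `P` is then the image of a point of the curve over `F` under `Affine.Point.map` (`W` over `k`, `F →ₐ[k] L`), which is a homomorphism of groups. (Or directly with the formulas of `Affine.Point.add`: slope, `addX`, `addY`.) -/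
def S_SUBF : Prop :=
  ∀ (k L : Type) [Field k] [CharZero k] [Field L] [DecidableEq L] [Algebra k L] (W : Affine k)
    (F : IntermediateField k L) (P Q : (WL L W).Point), IP (F : Set L) P → IP (F : Set L) Q →
    IP (F : Set L) (P + Q) ∧ IP (F : Set L) (P - Q) ∧ IP (F : Set L) (-P) ∧
      ∀ n : ℕ, IP (F : Set L) (n • P)

/-- **DADD**: `z'(P) = D x(P) / ψ(P)` is additive. No hypotheses.
PROOF. `D` is a derivation over `k`, the coefficients of `W` are constants. Write `ψ_i = ψ(P_i)`, `B(x) = 4x³ + b₂x² + 2b₄x + b₆`, `ψ² = B(x)`, `z' = z'(P)`. (N) For every `P ≠ 0`: `D x = ψ z'`, `2 D ψ = B'(x) z'`. If `ψ ≠ 0`: definition, and `2 ψ D ψ = B'(x) D x`. If `ψ = 0`: `z' = 0`, `0 = D(B(x)) = B'(x) D x` and `B'(x) ≠ 0` (`B` has no double root, `Δ ≠ 0`: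
e.g. the identity `Δ ∈ (B(x), B'(x))`), so `D x = 0`, `D ψ = 0`. Also `z'(-P) = -z'(P)`, `z'(0) = 0`.
SUM of `P₁, P₂ ≠ 0`, `x₁ ≠ x₂`: with `l = (ψ₁ - ψ₂)/(x₁ - x₂)`: `4 x₃ = l² - b₂ - 4x₁ - 4x₂`, `ψ₃ = -(l (x₃ - x₁) + ψ₁)` (from Mathlib's `slope`, `addX`, `addY`: `l = 2 slope + a₁`). By (N) for `P₁, P₂` one gets `D l` and, using `ψ_i² = B(x_i)` (`field_simp`, `linear_combination`), `D x₃ = ψ₃ (z₁' + z₂')` and `2 D ψ₃ = B'(x₃)(z₁' + z₂')`.
If `ψ₃ ≠ 0` the first gives `z₃' = z₁' + z₂'`; if `ψ₃ = 0` then `z₃' = 0` and `B'(x₃) ≠ 0` gives `z₁' + z₂' = 0`. (The two identities are symmetric; it is enough to check the coefficient of `z₁'`, a rational identity modulo `ψ₁² = B(x₁)`, `ψ₂² = B(x₂)`: `2l (B'(x₁)(x₁-x₂)/2 - (ψ₁-ψ₂)ψ₁)/(x₁-x₂)² - 4ψ₁ = 4ψ₃` for the first one.)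
DOUBLE `P₁ = P₂`, `ψ₁ ≠ 0`: `l = B'(x₁)/(2ψ₁)`, `4 x₃ = l² - b₂ - 8 x₁`, `ψ₃ = -(l (x₃ - x₁) + ψ₁)`; the same two identities with `z₁' + z₂' = 2 z₁'`. `P₂ = -P₁` (in particular `ψ₁ = 0`, `P₁ = P₂`): the sum is `0` and `z₁' + z₂' = 0`. -/
def S_DADD : Prop :=
  ∀ (k L : Type) [Field k] [CharZero k] [Field L] [DecidableEq L] [Algebra k L] (W : Affine k)
    [W.IsElliptic] (D : Derivation k L L) (P Q : (WL L W).Point), zd D (P + Q) = zd D P + zd D Q

/-- **DEX**: the derivation over `κ`. Hypothesis allowed: `Helper92.UQ.DERF`.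
PROOF. `{x}` is algebraically independent over `κ`; extend to a transcendence basis (`exists_isTranscendenceBasis_superset`-type lemma), `D x = v`, `D = 0` on the other elements (DERF). KERNEL: `z` algebraic over `κ(x)`, `D z = 0`. There is `P ≠ 0` in `κ[Z, X]` with `P(z, x) = 0`; take it irreducible (a factor). `0 = D(P(z, x)) = P_Z(z, x) D z + P_X(z, x) v = P_X(z, x) v`,
so `P_X(z, x) = 0`. If `P_X ≠ 0` then `P ∣ P_X` (GENQ (1); proof: if `P` involves `Z` by Gauss' lemma; otherwise `P(x) = 0`, impossible) contradicts the degree in `X`. So `P_X = 0`, `P ∈ κ[Z]` (characteristic `0`), `z` is algebraic over `κ`, so `z ∈ κ` (`IsAlgClosed.algebraMap_surjective_of_isIntegral`-type lemma). -/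
def S_DEX : Prop :=
  ∀ (κ L : Type) [Field κ] [CharZero κ] [IsAlgClosed κ] [Field L] [Algebra κ L] (x v : L),
    Transcendental κ x → v ≠ 0 → ∃ D : Derivation κ L L, D x = v ∧
      ∀ z : L, IsAlgebraic (IntermediateField.adjoin κ {x}) z → D z = 0 →
        z ∈ Set.range (algebraMap κ L)

/-- **TORS**: `x(P)` has degree `≥ 4^e` over `κ(x(2^e P - c))`. Landed: NZ1, EDUP, ELAW (may be hypotheses).
PROOF. Suppose `R ≠ 0`, `deg_1 R < 4^e`, `R(u, x(P)) = 0`, `u = x(w)`, `w = 2^e P - c`. Here `W` is defined over `k ⊆ κ`, `κ` algebraically closed; a point with `x ∈ κ` has `ψ ∈ κ` (`ψ² = B(x)`), and the points with coordinates in `κ` form a subgroup (SUBF for the range of `κ`). (i) `u ∉ κ`, `w ≠ 0`: otherwise `w`, so `2^e P = w + c` has coordinates in `κ`, and EDUP (`Φ_e(x(P)) = x(2^e P) Ψ_e(x(P))`, resp. `Ψ_e(x(P)) = 0`) gives a nonzero polynomial over `κ` with the root `x(P)`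
(`Φ_e - t Ψ_e` is monic of degree `4^e`; `Ψ_e ≠ 0`), so `x(P) ∈ κ`, contradiction. In the same way `2^e P ± c ≠ 0`, `V := 2^e P`, `2 V ≠ 0`. (ii) `G := R(u, X) ≠ 0` in `L[X]` (`u` transcendental over `κ`, `R ≠ 0`), of degree `< 4^e`; NZ1 with `R := V`: there is `P' ≠ 0` with `2^e P' = V`, `G(x(P')) ≠ 0`.
(iii) `c ≠ 0`: let `(L1, L2)(x, ψ) = law .. e false x (xc c) (ψ * ps c)`, polynomials over `κ` in `x, ψ`, `N ≥ deg_0 R`, `F(x, ψ) := ∑ r_(ij) L1^(N-i) L2^i x^j = L1^N R(L2/L1, x)`. ELAW at `P` (`P, c ≠ 0`, `2^e P ± c ≠ 0`): `L1 ≠ 0`, `L2 = u L1`, so `F(x(P), ψ(P)) = 0`. Reduce: `F ≡ F0(x) + ψ F1(x)` modulo `ψ² - B(x)`, `F0, F1 ∈ κ[x]`; then `F0² - B F1²` vanishes at `x(P)`, transcendental, so `F0² = B F1²`, and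
`F0 = F1 = 0` (degrees: `deg B = 3` is odd). Hence `F(x', ψ') = 0` for all `(x', ψ')` with `ψ'² = B(x')`, in particular at `P'`. ELAW at `P'` (`2^e P' ± c = V ± c ≠ 0`): `L1(P') ≠ 0`, `L2(P') = x(V - c) L1(P') = u L1(P')`. So `R(u, x(P')) = 0`, contradiction to (ii). (iv) `c = 0`: the same with `(L1, L2) = (Ψ_e(x), Φ_e(x))` and EDUP. -/
def S_TORS : Prop :=
  ∀ (k κ L : Type) [Field k] [CharZero k] [Field κ] [IsAlgClosed κ] [Field L] [IsAlgClosed L]
    [DecidableEq L] [Algebra k κ] [Algebra κ L] [Algebra k L] [IsScalarTower k κ L]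
    (W : Affine k) [W.IsElliptic] (e : ℕ) (P c : (WL L W).Point), P ≠ 0 →
    Transcendental κ (xc P) → IP (Set.range (algebraMap κ L)) c →
    ∀ R : MvPolynomial (Fin 2) κ, R ≠ 0 → aeval ![xc ((2 ^ e) • P - c), xc P] R = 0 →
      4 ^ e ≤ R.degreeOf 1

/-- **DIV**: division by `2^e` over `κ`. Landed: NZ1, EDUP (may be hypotheses).
PROOF. NZ1 with `R := w`, `G := 1`: `P ≠ 0` with `2^e P = w`. EDUP: `Φ_e(x(P)) - x(w) Ψ_e(x(P)) = 0` (`w ≠ 0`), a monic polynomial over `κ` of degree `4^e` with the root `x(P)`; `κ` is algebraically closed, so `x(P) ∈ κ`, and `ψ(P)² = B(x(P))` gives `ψ(P) ∈ κ`. -/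
def S_DIV : Prop :=
  ∀ (k κ L : Type) [Field k] [CharZero k] [Field κ] [IsAlgClosed κ] [Field L] [IsAlgClosed L]
    [DecidableEq L] [Algebra k κ] [Algebra κ L] [Algebra k L] [IsScalarTower k κ L]
    (W : Affine k) [W.IsElliptic] (e : ℕ) (w : (WL L W).Point),
    IP (Set.range (algebraMap κ L)) w → 2 • w ≠ 0 → ∃ P : (WL L W).Point, P ≠ 0 ∧
      (2 ^ e) • P = w ∧ IP (Set.range (algebraMap κ L)) P

/-! ## Elimination -/

/-- **ELM**: elimination by a dimension count. No hypotheses.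
PROOF. `P₁(z1, x) = 0`, `P₂(z2, x) = 0`. `x` is transcendental, so `z1` occurs: let `u1' ≤ u1` be the degree of `P₁(Z, x)` in `Z` (`≥ 1`, because `P₁(Z, x) ≠ 0` has the root `z1`), `l1(x) ≠ 0` its leading coefficient, `l1` of degree `≤ v1`; the same for `P₂`. Let `t' ≤ t` be the degree of `G(z1, z2, Y)`, `≥ 1`, `g := ` the leading coefficient, `g = G_(t')(z1, z2) ≠ 0`.
(i) `g^a y^a ∈ ∑_(l < t') κ[z1, z2]_(≤ a s1, a s2) y^l` (polynomials in `z1, z2` of degrees `≤ a s1`, `≤ a s2`) if we allow the factor: for `a ≥ 0` by induction from `g y^(t') = - ∑_(l < t') G_l(z1, z2) y^l` (multiply by `y`, and by `g` the terms with exponent `< t'`). (ii) `l1^m z1^i ∈ ∑_(i' < u1') κ[x]_(≤ m v1) z1^(i')` for `i ≤ m`; the same for `z2`.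
So for `A, B`: the `(A+1)(B+1)` elements `g^A l1^(s1 A) l2^(s2 A) y^a x^b`, `a ≤ A`, `b ≤ B`, are in the `κ`-span of the `z1^i z2^j y^l x^r`, `i < u1'`, `j < u2'`, `l < t'`, `r ≤ A (s1 v1 + s2 v2) + B`, at most `n (A V + B + 1)` elements, `n = u1 u2 t`, `V = s1 v1 + s2 v2`. With `A = 2n`, `B = 2 n V`: `(2n+1)(2nV+1) > n (4 n V + 1)`, so there is
a nontrivial relation; divide by the common nonzero factor. (If `n = 0`: some degree `u1, u2, t` is `0`: impossible by the above.) -/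
def S_ELM : Prop :=
  ∀ (κ L : Type) [Field κ] [Field L] [Algebra κ L] (x z1 z2 y : L) (u1 v1 u2 v2 s1 s2 t : ℕ)
    (G : MvPolynomial (Fin 3) κ), Transcendental κ x → Rel κ z1 x u1 v1 → Rel κ z2 x u2 v2 →
    G.degreeOf 0 ≤ s1 → G.degreeOf 1 ≤ s2 → G.degreeOf 2 ≤ t → aeval ![z1, z2, y] G = 0 →
    (∃ c : L, aeval ![z1, z2, c] G ≠ 0) →
    Rel κ y x (2 * (u1 * u2 * t)) (2 * (u1 * u2 * t) * (s1 * v1 + s2 * v2))

/-- **GENQ**: the generic point of an irreducible plane curve. No hypotheses.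
PROOF. `Q` involves the variable `0`, otherwise `Q(x) = 0`, `x` transcendental. As a polynomial in `X_0` over `κ[X_1]` it is irreducible of positive degree, so irreducible over the fraction field, which embeds in `L` (`X_1 ↦ x`); it is associated to the minimal polynomial of `y`, so it divides `G` over the fraction field and (primitive) over `κ[X_1]`. (Or: the kernel of `aeval ![y, x]` is a prime ideal of height one of the
UFD `κ[X_0, X_1]`; or resultants.) (2) `pderiv 0 Q ≠ 0` has smaller degree in `X_0`, so `Q ∤ pderiv 0 Q`. The same with the roles of the variables exchanged if `y` is transcendental (use `rename (Equiv.swap 0 1)`). -/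
def S_GENQ : Prop :=
  ∀ (κ L : Type) [Field κ] [CharZero κ] [Field L] [Algebra κ L] (x y : L)
    (Q : MvPolynomial (Fin 2) κ), Irreducible Q →
    (Transcendental κ x → aeval ![y, x] Q = 0 →
      (∀ G : MvPolynomial (Fin 2) κ, aeval ![y, x] G = 0 → Q ∣ G) ∧ Q.degreeOf 0 ≠ 0 ∧
        aeval ![y, x] (pderiv 0 Q) ≠ 0) ∧
    (Transcendental κ x → aeval ![x, y] Q = 0 →
      (∀ G : MvPolynomial (Fin 2) κ, aeval ![x, y] G = 0 → Q ∣ G) ∧ Q.degreeOf 1 ≠ 0 ∧
        aeval ![x, y] (pderiv 1 Q) ≠ 0)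

/-- **IRRD**: an irreducible relation with both degrees bounded. Hypothesis allowed: GENQ.
PROOF. Some irreducible factor `Q` of `P` vanishes at `(y, x)`; `degreeOf 1 Q ≤ degreeOf 1 P` (`Q ∣ P ≠ 0`, domain). `Q(Z, x)` over `κ(x)` is irreducible (Gauss, `κ[x]` is a polynomial ring because `x` is transcendental) of degree `degreeOf 0 Q`, so this is the degree of the minimal polynomial of `y` over `κ(x)`, which is `≤ finrank ≤ μ` (`y ∈ F`). (Or by GENQ (1): `y` is a root of a monic polynomial over `κ(x)` of degree `≤ μ`;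
clear the denominators: `G ∈ κ[X_0, X_1]`, `G ≠ 0`, `G(y, x) = 0`, `degreeOf 0 G ≤ μ`; `Q ∣ G` gives `degreeOf 0 Q ≤ μ`.) -/
def S_IRRD : Prop :=
  ∀ (κ L : Type) [Field κ] [CharZero κ] [Field L] [Algebra κ L] (x y : L) (μ : ℕ)
    (F : IntermediateField (IntermediateField.adjoin κ {x}) L) (P : MvPolynomial (Fin 2) κ),
    Transcendental κ x → FiniteDimensional (IntermediateField.adjoin κ {x}) F →
    Module.finrank (IntermediateField.adjoin κ {x}) F ≤ μ → y ∈ F → P ≠ 0 →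
    aeval ![y, x] P = 0 → ∃ Q : MvPolynomial (Fin 2) κ, Irreducible Q ∧ Q.degreeOf 0 ≤ μ ∧
      Q.degreeOf 1 ≤ P.degreeOf 1 ∧ aeval ![y, x] Q = 0

/-- **FDEG**: the field generated by the points. Hypothesis allowed: SUBF.
PROOF. `E := κ(x)`, `x = x(a2)`. `F1 := E(ψ(a2))`, `[F1 : E] ≤ 2` (`ψ² = B(x) ∈ E`); `a2` and `2^e a2 - b2` (coordinates in `κ`) have coordinates in `F1`, so also `b2` (SUBF with `k`, `F1.restrictScalars k`). `F2 := F1(x(a3))`, degree `≤ D0`: `g(x(a2), X) ≠ 0` (`g ≠ 0`, `x(a2)` transcendental over `κ ⊇ k`) has degree `≤ D0`; `F3 := F2(ψ(a3))`, degree `≤ 2`; `F4 := F3(x(b3))`, degree `≤ D0` (`g'(x(b2), X)`, `x(b2) ∈ F3`,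
transcendental over `κ`); `F5 := F4(ψ(b3))`, degree `≤ 2`. `w3 = 2^e a3 - b3` has coordinates in `F := F5` (SUBF). `[F : E] ≤ 8 D0²` (`Module.finrank_mul_finrank`, `IntermediateField.adjoin.finrank`). -/
def S_FDEG : Prop :=
  ∀ (k κ L : Type) [Field k] [CharZero k] [Field κ] [Field L] [DecidableEq L] [Algebra k κ]
    [Algebra κ L] [Algebra k L] [IsScalarTower k κ L] (W2 W3 : Affine k) (D0 e : ℕ)
    (g g' : MvPolynomial (Fin 2) k) (a2 b2 : (WL L W2).Point) (a3 b3 : (WL L W3).Point),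
    CD κ W2 W3 D0 e g g' a2 b2 a3 b3 →
    ∃ F : IntermediateField (IntermediateField.adjoin κ {xc a2}) L,
      FiniteDimensional (IntermediateField.adjoin κ {xc a2}) F ∧
      Module.finrank (IntermediateField.adjoin κ {xc a2}) F ≤ 8 * D0 ^ 2 ∧
      IP (F : Set L) a2 ∧ IP (F : Set L) b2 ∧ IP (F : Set L) a3 ∧ IP (F : Set L) b3 ∧
      IP (F : Set L) ((2 ^ e) • a3 - b3)

/-! ## The curve lemma -/

/-- **CFACT**: the derivation. Hypotheses allowed: DADD, DEX, GENQ.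
PROOF. `ψ(a2) ≠ 0` (`B(x(a2)) ≠ 0`, transcendental), DEX with `x = x(a2)`, `v = ψ(a2)`: `D`, `one`, `ker`. `D` restricted to `k` is a `k`-derivation (`Derivation.restrictScalars`), DADD applies: `z'` is a homomorphism, `z'(n P) = n z'(P)`, `z'(P - Q) = z'(P) - z'(Q)`. `z'(2^e a2 - b2) = 0` (`kw`: the `x`-coordinate is a constant, or the point is `0`), so `zb2`; `zw3`.
`0 = D(g(x(a2), x(a3))) = g_0 D x(a2) + g_1 D x(a3)` (`g` over `k`), and `D x = ψ z'` (for `a3`: if `ψ(a3) = 0` then `B(x(a3)) = 0`, `x(a3)` is algebraic over `κ`, so a constant, `D x(a3) = 0`): squares, `ψ² = B(x)`: `ea`; for `b`: `z'(b2)² = 4^e`: `eb`. `na`: if `N1(a) = 0` then `N0(a) = 0` by `ea`, both sides of `slo` are `0`. `nb`: the same. `ne`: if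
`4^e z'(a3)² = z'(b3)²` multiply by `N1(a) N1'(b)`: `4^e N0(a) N1'(b) = 4^e N0'(b) N1(a)`, contradiction to `slo` (characteristic `0`). -/
def S_CFACT : Prop :=
  ∀ (k κ L : Type) [Field k] [CharZero k] [Field κ] [IsAlgClosed κ] [Field L] [DecidableEq L]
    [Algebra k κ] [Algebra κ L] [Algebra k L] [IsScalarTower k κ L] (W2 W3 : Affine k)
    [W2.IsElliptic] [W3.IsElliptic] (D0 e : ℕ) (g g' : MvPolynomial (Fin 2) k)
    (a2 b2 : (WL L W2).Point) (a3 b3 : (WL L W3).Point), CD κ W2 W3 D0 e g g' a2 b2 a3 b3 →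
    ∃ D : Derivation κ L L, DF κ W2 W3 e g g' a2 b2 a3 b3 D

/-- **CLAM**: the relation for `z'(w3)`, `w3 = 2^e a3 - b3`. Hypotheses allowed: FDEG, IRRD, GENQ, ELM, DADD.
PROOF. `x = x(a2)`, `y = x(w3)`, `l = z'(w3)`. `l ≠ 0` by `zw3`, `ne` (squares), so `w3 ≠ 0`, `ψ(w3) ≠ 0`, `D y ≠ 0`, `y` is not algebraic over `κ` (`D` kills the algebraic elements in characteristic `0`), so `1 ≤ degreeOf 1 R` (otherwise `R` is a nonzero polynomial in `y` alone). (`2^e a3 + b3 ≠ 0`: otherwise `z'(b3) = - 2^e z'(a3)`, contradiction to `ne`; by DADD.)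
FDEG, IRRD: `Q` irreducible, `Q(y, x) = 0`, degrees `≤ μ = 8 D0²` in `y` and `≤ d := degreeOf 1 R` in `x`. So `Rel κ y x μ d`. GENQ: `Q_0(y, x) ≠ 0`. `0 = D(Q(y, x)) = Q_0 D y + Q_1 D x = Q_0 ψ(w3) l + Q_1 ψ(a2)` (`D x = ψ(a2)` by `one`). Squares: `l² Q_0(y,x)² B_3(y) = Q_1(y,x)² B_2(x)`. ELM with `z1 = y`, `z2 = x` (`Rel κ x x 1 1`: `X_0 - X_1`), unknown `l`, `G = X_2² Q_0(X_0,X_1)² B_3(X_0) - Q_1(X_0,X_1)² B_2(X_1)`
(degrees `≤ 2μ + 3`, `≤ 2d + 3`, `≤ 2`; the coefficient `Q_0² B_3(y)` of `X_2²` is not `0` at `(y, x)`, so `G(y, x, .) ≠ 0`): `Rel κ l x (4 μ) (4 μ ((2μ+3) d + (2d+3)))`, and `d ≥ 1`: everything is `≤ C`, `≤ C d`. -/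
def S_CLAM : Prop :=
  ∀ D0 : ℕ, ∃ C : ℕ, ∀ (k κ L : Type) [Field k] [CharZero k] [Field κ] [IsAlgClosed κ]
    [Field L] [DecidableEq L] [Algebra k κ] [Algebra κ L] [Algebra k L] [IsScalarTower k κ L]
    (W2 W3 : Affine k) [W2.IsElliptic] [W3.IsElliptic] (e : ℕ) (g g' : MvPolynomial (Fin 2) k)
    (a2 b2 : (WL L W2).Point) (a3 b3 : (WL L W3).Point) (D : Derivation κ L L),
    CD κ W2 W3 D0 e g g' a2 b2 a3 b3 → DF κ W2 W3 e g g' a2 b2 a3 b3 D →
    (2 ^ e) • a3 - b3 ≠ 0 ∧ (2 ^ e) • a3 + b3 ≠ 0 ∧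
    ∀ R : MvPolynomial (Fin 2) κ, R ≠ 0 → aeval ![xc ((2 ^ e) • a3 - b3), xc a2] R = 0 →
      1 ≤ R.degreeOf 1 ∧ Rel κ (xc ((2 ^ e) • a3 - b3)) (xc a2) C (C * R.degreeOf 1) ∧
        Rel κ (zd D ((2 ^ e) • a3 - b3)) (xc a2) C (C * R.degreeOf 1)

/-- **CASA**: the slope of the second curve is not constant. Hypotheses allowed: ELM, TORS.
PROOF. All relations with `x = x(a2)` over `κ`; `C_i` depend on `D0, C` only; `d ≥ 1`. (1) `Rel κ x(a3) x D0 D0` (`g`, variables exchanged, base change to `κ`), `z'(a3)² N1(a) = N0(a)`, `N1(a) ≠ 0`: ELM with `z1 = x(a3)`, `z2 = x`, `G = X_2² N1(X_1, X_0) - N0(X_1, X_0)` (degrees `≤ 2 D0 + 3`, `≤ 2 D0 + 3`, `2`): `Rel κ z'(a3) x C1 C1`.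
(2) `z'(b3) = 2^e z'(a3) - z'(w3)`: ELM with `z1 = z'(a3)`, `z2 = z'(w3)`, `G = 2^e X_0 - X_1 - X_2`: `Rel κ z'(b3) x C2 (C2 d)`. (3) over `κ` with the base `x(b2)` (transcendental): `Rel κ x(b3) x(b2) D0 D0`, `eb`, `nb`: as in (1) `Rel κ z'(b3) x(b2) C3 C3`; let `P(z'(b3), x(b2)) = 0`. (4) `z'(b3)` is not in `κ`, so it is transcendental over `κ` (algebraically closed), and `P(z'(b3), .) ≠ 0`: ELM with `z1 = z'(b3)`,
`z2 = x` (not used), unknown `x(b2)`, `G = P(X_0, X_2)`: `Rel κ x(b2) x C4 (C4 d)`. (5) `b2 = 2^e a2 - w2`, `w2 = 2^e a2 - b2` with coordinates in `κ` (`kw`): TORS for `P = a2`, `c = w2`: `4^e ≤ C4 d`. -/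
def S_CASA : Prop :=
  ∀ D0 C : ℕ, ∃ C' : ℕ, ∀ (k κ L : Type) [Field k] [CharZero k] [Field κ] [IsAlgClosed κ]
    [Field L] [IsAlgClosed L] [DecidableEq L] [Algebra k κ] [Algebra κ L] [Algebra k L]
    [IsScalarTower k κ L] (W2 W3 : Affine k) [W2.IsElliptic] [W3.IsElliptic] (e d : ℕ)
    (g g' : MvPolynomial (Fin 2) k)
    (a2 b2 : (WL L W2).Point) (a3 b3 : (WL L W3).Point) (D : Derivation κ L L),
    CD κ W2 W3 D0 e g g' a2 b2 a3 b3 → DF κ W2 W3 e g g' a2 b2 a3 b3 D → 1 ≤ d →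
    Rel κ (zd D ((2 ^ e) • a3 - b3)) (xc a2) C (C * d) →
    zd D b3 ∉ Set.range (algebraMap κ L) → 4 ^ e ≤ C' * d

/-- **CASB**: the slope of the second curve is constant. Hypotheses allowed: ELM, TORS, DIV, DADD, GENQ, SUBF, FDEG.
PROOF. Let `z'(b3) ∈ κ`. `m := N0'(b)/N1'(b) = z'(b3)²/4^e ∈ κ`; `m` is algebraic over `k(x(b2))` and `x(b2)` is transcendental over `κ`, so `m` is algebraic over `k`, `m ∈ k` (`k` algebraically closed; if `P(m, x(b2)) = 0`, `P ≠ 0` over `k`, then `P(m, X) = 0` in `κ[X]`, and some coefficient is a nonzero polynomial over `k` with root `m`). GENQ for `g'` and `k`: `g' ∣ B_2(X_0) g'_0² - m B_3(X_1) g'_1²`, `g' ∤ B_3(X_1)`, `g' ∤ g'_1` (`nb`).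
DIV: `w2'` with `2^e w2' = w2 := 2^e a2 - b2` (`nw`, `kw`), coordinates in `κ`. `c2 := a2 - w2'`: `2^e c2 = b2`, `z'(c2) = z'(a2) = 1`; `x(c2)` is transcendental over `κ` (otherwise `c2`, so `b2`, has coordinates in `κ`). `R0` := a point with `g'(x(c2), x(R0)) = 0`, `R0 ≠ 0` (`g'(x(c2), X)` has degree `degreeOf 1 g' ≥ 1`, `L` algebraically closed; every `x ∈ L` is the `x` of a point: a square root of `B_3(x)`).
`(x(c2), x(R0))` is generic on `g'` over `k` (GENQ), so `g'_1 ≠ 0`, `B_3(x(R0)) ≠ 0` there, and as in CFACT `z'(R0)² N1'(c2, R0) = N0'(c2, R0) = m N1'(c2, R0)`: `z'(R0)² = m`, `z'(b3)² = 4^e m`. Replace `R0` by `-R0` if necessary: `z'(b3) = 2^e z'(R0)`. `c := b3 - 2^e R0`: `z'(c) = 0`, its coordinates are algebraic over `κ(x)` (FDEG for `b3`; `R0` algebraic over `κ(x(c2))`, `c2 = a2 - w2'`; the algebraic elements form an intermediate field, SUBF), so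
by `ker` they are in `κ`: if `ψ(c) ≠ 0`: `D x(c) = 0`, `x(c) ∈ κ`, `ψ(c)² = B(x(c))`; if `ψ(c) = 0`, `c ≠ 0`: `x(c)` is a root of `B_3`. Let `P := a3 - R0`: `w3 = 2^e a3 - b3 = 2^e P - c`; `z'(P) = z'(a3) - z'(R0) ≠ 0` by `ne` (`z'(a3)² ≠ m`), so `P ≠ 0` and `x(P)` is transcendental over `κ`. TORS: `Rel κ x(w3) x(P) u v → 4^e ≤ v`.
RELATIONS over `κ` with `x = x(a2)`: (1) `Rel κ x(a3) x D0 D0`. (2) `Rel κ x(c2) x 2 4`: the law `(2U · X_2 - T)² = B_2(x) B_2(x(w2'))` (`2 U x(P ± Q) = T ∓ ψ ψ'`, `U = (x - x')²`, ELAW with `e = 0`), `w2' ≠ 0`, leading coefficient `4 (x - x(w2'))⁴ ≠ 0`; (3) `Rel κ x(R0) x C1 C1`: ELM with `z1 = x(c2)`, `G = g'(X_0, X_2)`. (4) `x(P)`, `P = a3 - R0`, `x(a3) ≠ x(R0)` (otherwise `a3 = ± R0`, `z'(a3)² = m`): the same law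
`G = (2 (X_0 - X_1)² X_2 - T(X_0, X_1))² - B_3(X_0) B_3(X_1)`, `z1 = x(a3)`, `z2 = x(R0)`: `Rel κ x(P) x C2 C2`. (5) exchange: `Rel κ x x(P) C2 C2`; the given relation `Q(x(w3), x) = 0` of degrees `≤ C, C d`: ELM with the base `x(P)`, `z1 = x`, `z2 = x(P)` (not used), `G = Q(X_2, X_0)` (degree `≤ C d` in `X_0`; `Q(., x) ≠ 0`): `Rel κ x(w3) x(P) C3 (C3 d)`. TORS: `4^e ≤ C3 d`. -/
def S_CASB : Prop :=
  ∀ D0 C : ℕ, ∃ C' : ℕ, ∀ (k κ L : Type) [Field k] [CharZero k] [IsAlgClosed k] [Field κ]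
    [IsAlgClosed κ] [Field L] [IsAlgClosed L] [DecidableEq L] [Algebra k κ] [Algebra κ L]
    [Algebra k L] [IsScalarTower k κ L] (W2 W3 : Affine k) [W2.IsElliptic] [W3.IsElliptic]
    (e d : ℕ) (g g' : MvPolynomial (Fin 2) k)
    (a2 b2 : (WL L W2).Point) (a3 b3 : (WL L W3).Point) (D : Derivation κ L L),
    CD κ W2 W3 D0 e g g' a2 b2 a3 b3 → DF κ W2 W3 e g g' a2 b2 a3 b3 D → 1 ≤ d →
    Rel κ (xc ((2 ^ e) • a3 - b3)) (xc a2) C (C * d) →
    zd D b3 ∈ Set.range (algebraMap κ L) → 4 ^ e ≤ C' * d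

/-- **AIP**: independence of a pair. Hypothesis allowed: SUBF; landed EDUP.
PROOF. `w = 2^e a - b`. Let `F` = the algebraic closure of `k(x(a))` in `L` (as an intermediate field of `L/k`; `algebraicClosure`, restrictScalars). `ψ(a)² = B(x(a))`: `a` has coordinates in `F`. If `w = 0` or `x(w) ∈ F` (then also `ψ(w) ∈ F`) or `2^e a + b = 0` then `b = 2^e a - w` (or `-2^e a`) has coordinates in `F` (SUBF): `x(b)` algebraic over `k(x(a))`, contradiction. If `2 w = 0` then `w = 0` or `ψ(w) = 0`, `B(x(w)) = 0`, `x(w)` algebraic over `k`. So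
`x(a), x(w)` are independent (`x(a)` transcendental over `k`, `x(w)` transcendental over `k(x(a))`: `algebraicIndependent` of a pair, `AlgebraicIndependent` `Fin 2`/option lemmas). Similarly if `x(w)` were algebraic over `k(x(b))` then `2^e a = w + b` and, by EDUP (`Φ_e - x(2^e a) Ψ_e` is monic of degree `4^e`, or `Ψ_e(x(a)) = 0` if `2^e a = 0`), `x(a)` would be algebraic over `k(x(b))`. -/
def S_AIP : Prop :=
  ∀ (k L : Type) [Field k] [CharZero k] [Field L] [DecidableEq L] [Algebra k L] (W : Affine k)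
    [W.IsElliptic] (a b : (WL L W).Point) (e : ℕ), a ≠ 0 → b ≠ 0 →
    AlgebraicIndependent k ![xc a, xc b] →
    (2 ^ e) • a - b ≠ 0 ∧ (2 ^ e) • a + b ≠ 0 ∧ 2 • ((2 ^ e) • a - b) ≠ 0 ∧
      AlgebraicIndependent k ![xc a, xc ((2 ^ e) • a - b)] ∧
      AlgebraicIndependent k ![xc b, xc ((2 ^ e) • a - b)]

/-- **CRV** (the curve lemma). Hypotheses allowed: AIP, CFACT, CLAM, CASA, CASB.
PROOF. `w2 := 2^e a2 - b2`. `κ` := the algebraic closure of `k(x(w2))` in `L` (`algebraicClosure (IntermediateField.adjoin k {x(w2)}) L`, a field with `Algebra k κ`, tower; algebraically closed because `L` is). AIP: `w2 ≠ 0`, `2 w2 ≠ 0`, `x(a2)`, `x(b2)` are transcendental over `k(x(w2))`, so over `κ`; `x(w2), ψ(w2) ∈ κ`. So `CD` holds; CFACT gives `D`. CLAM: `2^e a3 ± b3 ≠ 0`.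
Given `R ∈ k[X_0, X_1, X_2]`: `R' := R(X_1, x(w2), X_0) ∈ κ[X_0, X_1]` (`X_0` of `R` becomes `X_1`, `X_2` becomes `X_0`), `R' ≠ 0` because `x(w2)` is transcendental over `k`, `R'(x(w3), x(a2)) = 0`, `degreeOf 1 R' ≤ degreeOf 0 R`. CLAM for `R'`, `d := degreeOf 1 R' ≥ 1`. CASA or CASB: `4^e ≤ C' d`. `η := 1 / (C'_A + C'_B + 1)`. -/
def S_CRV : Prop :=
  ∀ D0 : ℕ, ∃ η : ℝ, 0 < η ∧ ∀ (k L : Type) [Field k] [CharZero k] [IsAlgClosed k] [Field L]
    [IsAlgClosed L] [DecidableEq L] [Algebra k L] (W2 W3 : Affine k) [W2.IsElliptic]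
    [W3.IsElliptic] (e : ℕ) (g g' : MvPolynomial (Fin 2) k)
    (a2 b2 : (WL L W2).Point) (a3 b3 : (WL L W3).Point), Irreducible g → Irreducible g' →
    (∀ i, g.degreeOf i ≤ D0) → (∀ i, g'.degreeOf i ≤ D0) → g.degreeOf 1 ≠ 0 →
    g'.degreeOf 1 ≠ 0 → a2 ≠ 0 → b2 ≠ 0 → a3 ≠ 0 → b3 ≠ 0 →
    AlgebraicIndependent k ![xc a2, xc b2] → aeval ![xc a2, xc a3] g = 0 →
    aeval ![xc b2, xc b3] g' = 0 →
    N0c W2 g (xc a2) (xc a3) * N1c W3 g' (xc b2) (xc b3) ≠
      N0c W2 g' (xc b2) (xc b3) * N1c W3 g (xc a2) (xc a3) →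
    (2 ^ e) • a3 - b3 ≠ 0 ∧ (2 ^ e) • a3 + b3 ≠ 0 ∧
    ∀ R : MvPolynomial (Fin 3) k, R ≠ 0 →
      aeval ![xc a2, xc ((2 ^ e) • a2 - b2), xc ((2 ^ e) • a3 - b3)] R = 0 →
      η * 4 ^ e ≤ R.degreeOf 0

/-! ## Reduction of IND to the curve lemma -/

/-- **AIW**: independence of many pairs. Hypothesis allowed: AIP.
PROOF. Induction over `τ` (a finite set of pairs; `τ ≃ Fin n`, or remove one element): replace the pairs `(x(P_i), x(Q_i))` by `(x(P_i), x(w_i))`, `w_i = 2^e P_i - Q_i`, one after the other. If the pair of `i` and the other pairs (old or new) are independent over `K`, let `F` be the field generated by the other values; `x(P_i), x(Q_i)` are independent over `F` (`AlgebraicIndependent.sumElim_iff`-type lemma), AIP for the curve over `F` (as a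
curve over `F`: `(W i).map`; or use AIP's proof: `x(Q_i)` is algebraic over `F(x(P_i), x(w_i))` by SUBF, so the transcendence degree argument works without changing the base field of the curve: AIP may also be used with `k := F` because `WL L ((W i).map (algebraMap K F)) = WL L (W i)` (`map_map`)). Alternatively by the cardinality of transcendence bases: the `x(Q_i)` are algebraic over
the field generated by the `x(P_i), x(w_i)` (SUBF), which therefore has transcendence degree `2 |τ|` over `K`, and a generating family of `2 |τ|` elements is algebraically independent. -/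
def S_AIW : Prop :=
  ∀ (K Ω : Type) [Field K] [CharZero K] [Field Ω] [DecidableEq Ω] [Algebra K Ω] (τ : Type)
    [Fintype τ] (W : τ → Affine K), (∀ i, (W i).IsElliptic) →
    ∀ (P Q : ∀ i, (WL Ω (W i)).Point) (e : ℕ), (∀ i, P i ≠ 0) → (∀ i, Q i ≠ 0) →
    AlgebraicIndependent K (Sum.elim (fun i => xc (P i)) (fun i => xc (Q i))) →
    (∀ i, (2 ^ e) • P i - Q i ≠ 0 ∧ (2 ^ e) • P i + Q i ≠ 0) ∧
    AlgebraicIndependent K
      (Sum.elim (fun i => xc (P i)) (fun i => xc ((2 ^ e) • P i - Q i)))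

/-- **SPC**: specialisation of an irreducible `h` to the plane `(i0, i')`. No hypotheses.
PROOF. `h' := h` with `X_i ↦ X i ∈ k` for `i ≠ i0, i'`, `X_(i0) ↦ X_0`, `X_(i') ↦ X_1` (`hk`), in `k[X_0, X_1]`; `aeval ![X i0, X i'] h' = aeval X h = 0`, `h' ≠ 0` (the coefficients of `h` as a polynomial in `X_(i')` are polynomials in the `X_i`, `i ≠ i'`, which are algebraically independent over `K`), degrees `≤ D0`. `g` := an irreducible factor of `h'` which vanishes at `(X i0, X i')`, `h' = g q`. `g` involves `X_1` because `X i0` is transcendental over `k`.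
`h` does not divide `pderiv i' h ≠ 0` (degree), so `pderiv i' h (X) ≠ 0`: the point `X` is generic on `h = 0` (Gauss: `h` is irreducible of positive degree in `X_(i')`, the other coordinates are algebraically independent; if `pderiv i' h` vanished at `X`, then the resultant of `h` and `pderiv i' h` with respect to `X_(i')`, a nonzero polynomial in the `X_i`, `i ≠ i'`, would vanish). Product rule at the point, `g = 0`: `pderiv i0 h (X) = ∂_0 h' = q ∂_0 g`,
`pderiv i' h (X) = ∂_1 h' = q ∂_1 g`; the last one is not `0`, so `q ≠ 0`. -/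
def S_SPC : Prop :=
  ∀ (K k L : Type) [Field K] [CharZero K] [Field k] [Field L] [Algebra K k] [Algebra k L]
    [Algebra K L] [IsScalarTower K k L] (σ : Type) [Fintype σ] [DecidableEq σ]
    (h : MvPolynomial σ K) (i0 i' : σ) (D0 : ℕ) (X : σ → L), i0 ≠ i' → Irreducible h →
    (∀ i, h.degreeOf i ≤ D0) → h.degreeOf i' ≠ 0 → aeval X h = 0 →
    AlgebraicIndependent K (fun i : {i : σ // i ≠ i'} => X i) →
    (∀ i, i ≠ i0 → i ≠ i' → X i ∈ Set.range (algebraMap k L)) → Transcendental k (X i0) →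
    ∃ (g : MvPolynomial (Fin 2) k) (q : L), Irreducible g ∧ (∀ i, g.degreeOf i ≤ D0) ∧
      g.degreeOf 1 ≠ 0 ∧ aeval ![X i0, X i'] g = 0 ∧ q ≠ 0 ∧
      aeval X (pderiv i0 h) = q * aeval ![X i0, X i'] (pderiv 0 g) ∧
      aeval X (pderiv i' h) = q * aeval ![X i0, X i'] (pderiv 1 g)

/-- **SLP**: the slopes differ at the generic points if they differ at one pair of `K`-rational points. No hypotheses.
PROOF. Suppose equality at `(X, X0)`. Notation `N2_i := B_i(X_i) (∂_i h2)² ∈ K[X]`, `N0_i` for `h0`. The point `X` is generic on `h2 = 0` (see SPC): a polynomial over `K` vanishing at `X` is divisible by `h2`; the same for `X0`, `h0`. `∂_(i') h2 (X) ≠ 0`. `B_(i')(X_(i')) ≠ 0`: otherwise `h2 ∣ B_(i')(X_(i'))`, so `h2` involves only `X_(i')`, `N2_(i0) = 0`, and `B_(i')(x2_(i')) = 0`, `N2_(i')(x2) = 0`: both sides of the inequality at `(x2, x0)` are `0`, contradiction. So `N2_(i')(X) ≠ 0`, and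
`N0_(i')(X0) ≠ 0`. `m := N2_(i0)(X) / N2_(i')(X) = N0_(i0)(X0) / N0_(i')(X0)` is algebraic over `K(X_i : i ≠ i')` and over `K(X0_i : i ≠ i')`, so it is algebraic over `K`: (`F2` := algebraic closure of `K(X0_i)` in `Ω`; the `X_i`, `i ≠ i'`, are algebraically independent over `F2`; a polynomial relation `P(m, X) = 0` with `P ≠ 0` over `K` has `P(m, .) = 0` over `F2`, and some coefficient of `P` in the `X_i` is a nonzero polynomial over `K` with the root `m`.)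
Let `p` be the minimal polynomial of `m` over `K`, `n` its degree, `p*(S, T) = ∑ p_j S^j T^(n-j)`. `p*(N2_(i0), N2_(i'))` vanishes at `X`, so it is divisible by `h2` and vanishes at `x2`. If `N2_(i')(x2) = 0` then `N2_(i0)(x2)^n = 0`, both vanish, contradiction. So `N2_(i0)(x2)/N2_(i')(x2) ∈ K` is a root of the irreducible `p`: `n = 1` and this ratio is `m`. In the same way `N0_(i0)(x0)/N0_(i')(x0) = m`: equality at `(x2, x0)`, contradiction. -/
def S_SLP : Prop :=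
  ∀ (K : Type) [Field K] [CharZero K] (σ : Type) [Fintype σ] [DecidableEq σ]
    (W : σ → Affine K), (∀ i, (W i).IsElliptic) → ∀ (h2 h0 : MvPolynomial σ K) (i0 i' : σ),
    i0 ≠ i' → Irreducible h2 → Irreducible h0 → degreeOf i' h2 ≠ 0 → degreeOf i' h0 ≠ 0 →
    ∀ x2 x0 : σ → K, eval x2 h2 = 0 → eval x0 h0 = 0 →
    NN W h2 x2 i0 * NN W h0 x0 i' ≠ NN W h0 x0 i0 * NN W h2 x2 i' →
    ∀ (Ω : Type) [Field Ω] [Algebra K Ω] (X X0 : σ → Ω), aeval X h2 = 0 → aeval X0 h0 = 0 →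
      AlgebraicIndependent K
        (Sum.elim (fun i : {i : σ // i ≠ i'} => X i) (fun i : {i : σ // i ≠ i'} => X0 i)) →
      (Bf (mapS Ω W i0) (X i0) * aeval X (pderiv i0 h2) ^ 2) *
          (Bf (mapS Ω W i') (X0 i') * aeval X0 (pderiv i' h0) ^ 2) ≠
        (Bf (mapS Ω W i0) (X0 i0) * aeval X0 (pderiv i0 h0) ^ 2) *
          (Bf (mapS Ω W i') (X i') * aeval X (pderiv i' h2) ^ 2)

/-- **INDR**: IND from the curve lemma. Landed: ELAW.
PROOF. `η` of CRV. Given the data over `Ω` (`open Classical` for `DecidableEq Ω`). `P_i, Q_i ≠ 0` := the points of `WL Ω (W i) = mapS Ω W i` with `x = X i`, `ψ = Ψ i`, resp. `X0 i`, `Ψ0 i` (a point with this `x` exists because of `Ψ² = B(x)`; change the sign if necessary). `k` := the algebraic closure in `Ω` of `K(X_i, X0_i : i ≠ i0, i')`, algebraically closed. `x(P_(i0)) = X i0`, `X0 i0` are algebraically independent over `k`. SPC for `h2`, `X` and for `h0`, `X0`: `g, q`, `g', q'`.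
SLP and `q, q' ≠ 0` give the slope condition of CRV for `W2 = (W i0).map`, `W3 = (W i').map` over `k` (`map_map`; it may be convenient to transport points through `WL Ω ((W i).map (algebraMap K k)) = WL Ω (W i)`), `a2 = P_(i0)`, `b2 = Q_(i0)`, `a3 = P_(i')`, `b3 = Q_(i')`. Let `w_i := 2^e P_i - Q_i`. AIW for `τ = {i // i ≠ i'}`: `w_i ≠ 0`, `2^e P_i + Q_i ≠ 0` for `i ≠ i'`, and CRV gives the same for `i'`; the `X_i, x(w_i)`, `i ≠ i', i0`, are algebraically independent over `K` and in `k`.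
ELAW: with `(L1_i, L2_i)` the law of `i`: `L1_i ≠ 0`, `L2_i = x(w_i) L1_i`. So the sum is `(∏ L1_i^M) * S`, `S = ∑_α c(α) ∏_i X_i^(l_i) x(w_i)^(m_i)`. Suppose `S = 0`. Let `R := ∑_α c(α) ∏_(i ≠ i') X_i^(l_i) ∏_i Y_i^(m_i)`, a polynomial over `K` in independent variables `X_i` (`i ≠ i'`), `Y_i` (all `i`): nonzero, because different `α` in the support of `c` (`l_(i') = 0`) give different monomials. Substitute `X_i, x(w_i) ∈ k` for `i ≠ i0, i'`: `R' ∈ k[X_(i0), Y_(i0), Y_(i')]`,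
nonzero (algebraic independence over `K`), of degree `< η 4^e` in `X_(i0)` (or the degree is `0 < η 4^e`), and `R'(X i0, x(w_(i0)), x(w_(i'))) = S = 0`: contradiction to CRV. (`FinN`: index the three variables by `Fin 3`.) -/
def S_INDR : Prop := S_CRV → S_AIW → S_SPC → S_SLP → S_IND

end

end Pool.Agent.Helper60.T3
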