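import Pool.Agent.Helper60.T3.GoalsE
import Pool.Agent.Helper60.HC.Main1
import Pool.Agent.Helper92.SGE.Goals

/-!
# Project T3: END, part 1 (extraction, aligned data, P1 and P2)
-/

set_option autoImplicit false

open MvPolynomial Filter

namespace Pool.Agent.Helper60.T3

open WeierstrassCurve Height Height.AdmissibleAbsValues
open Pool.Agent.Helper29.BL Pool.Agent.Helper92.Ru Pool.Agent.Helper42.SG
open Pool.Agent.Helper5.UN (hv CodimGT cH)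
open Pool.Agent.Helper60.HC (Lo Al xs nrs S_P1 S_P2 S_NORT S_LOR)
open Pool.Agent.Helper92.SGE (QTR)

noncomputable section

/-- numbers for a pair -/
theorem pair_num (a T q K0 K1 : ℝ) (hK1 : 1 ≤ K1) (hK : 2 * K1 ≤ K0) (ha : K0 ≤ a)
    (hT : K0 * a ≤ T) (hq : 0 < q) (h1 : 3 / 4 * T ≤ q * a) (h2 : q * a ≤ 4 / 3 * T) :
    K1 ≤ q ∧ K1 * q ≤ T ∧ q * a ≤ 2 * T := by
  have ha0 : 0 < a := by linarith
  have hT0 : 0 < T := by nlinarith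
  refine ⟨?_, ?_, by linarith⟩
  · have h3 : 3 / 4 * K0 * a ≤ q * a := by nlinarith
    have := le_of_mul_le_mul_right h3 ha0
    linarith
  · have h3 : q * K0 ≤ q * a := mul_le_mul_of_nonneg_left ha hq.le
    nlinarith

/-- `(1-θ)²T ≤ .. ≤ (1+θ)²T`, `θ ≤ 1/8` -/
theorem pair_qtr (hQTR : QTR) {G : Type} [AddCommGroup G] (H : G → ℝ) (hQ : IsQuad H) (e : ℕ)
    (x y : G) (θ : ℝ) (h0 : 0 ≤ θ) (h1 : θ ≤ 1 / 8) (h : H ((2 ^ e) • x - y) ≤ θ ^ 2 * H y) :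
    3 / 4 * H y ≤ 4 ^ e * H x ∧ (4 : ℝ) ^ e * H x ≤ 4 / 3 * H y := by
  obtain ⟨a, b⟩ := hQTR G H hQ e x y θ h0 (by linarith) h
  have hy := hQ.nonneg y
  have c1 : 3 / 4 ≤ (1 - θ) ^ 2 := by nlinarith
  have c2 : (1 + θ) ^ 2 ≤ 4 / 3 := by nlinarith
  exact ⟨(mul_le_mul_of_nonneg_right c1 hy).trans a, b.trans (mul_le_mul_of_nonneg_right c2 hy)⟩

/-- the aligned data of points before `x0` -/
theorem al_of2 {K : Type} [Field K] [NumberField K] [DecidableEq K] {σ : Type} [Fintype σ]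
    {W : σ → Affine K} (hQTR : QTR) (H : ∀ i, (W i).Point → ℝ) (hQ : IsQuad (nrs H)) {ι : Type}
    (D : ℕ) (f : ι → MvPolynomial σ K) (θ K0 θ1 ε K1 : ℝ) (hK1 : 1 ≤ K1) (hK : 2 * K1 ≤ K0)
    (hθ0 : 0 ≤ θ) (hθ8 : θ ≤ 1 / 8) (hθ : θ ^ 2 ≤ θ1) (hε : 0 < ε) (n : ℕ)
    (x : Fin n → ∀ i, (W i).Point) (x0 : ∀ i, (W i).Point) (e : Fin n → ℕ)
    (hx : ∀ j, (∀ i, x j i ≠ 0 ∧ ps (x j i) ≠ 0) ∧ (∃ t, eval (xs (x j)) (f t) ≠ 0) ∧
      ε * nrs H (x j) ≤ cH D f (xs (x j)))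
    (hx0 : ∀ i, x0 i ≠ 0 ∧ ps (x0 i) ≠ 0) (hR : ∀ j, K0 ≤ nrs H (x j))
    (hg : ∀ j, K0 * nrs H (x j) ≤ nrs H x0)
    (hgr : ∀ j j', j < j' → K0 * nrs H (x j) ≤ nrs H (x j'))
    (hal : ∀ j, nrs H ((2 ^ e j) • x j - x0) ≤ θ ^ 2 * nrs H x0) :
    (∀ j, 3 / 4 * nrs H x0 ≤ 4 ^ e j * nrs H (x j) ∧
      (4 : ℝ) ^ e j * nrs H (x j) ≤ 4 / 3 * nrs H x0) ∧
    Al H D f n θ1 (ε / 2) K1 x x0 e (nrs H x0) := by
  have hT := hQ.nonneg x0
  have hp : ∀ j, 3 / 4 * nrs H x0 ≤ 4 ^ e j * nrs H (x j) ∧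
      (4 : ℝ) ^ e j * nrs H (x j) ≤ 4 / 3 * nrs H x0 := fun j =>
    pair_qtr hQTR (nrs H) hQ (e j) (x j) x0 θ hθ0 hθ8 (hal j)
  have hn : ∀ j, K1 ≤ (4 : ℝ) ^ e j ∧ K1 * (4 : ℝ) ^ e j ≤ nrs H x0 ∧
      (4 : ℝ) ^ e j * nrs H (x j) ≤ 2 * nrs H x0 := fun j =>
    pair_num _ _ _ K0 K1 hK1 hK (hR j) (hg j) (by positivity) (hp j).1 (hp j).2
  refine ⟨hp, fun j => (hx j).1, hx0, fun j => (hn j).2.2, by linarith, fun j =>
    (hal j).trans (mul_le_mul_of_nonneg_right hθ hT), fun j => ?_, fun j => (hx j).2.1,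
    fun j => (hn j).1, fun j => (hn j).2.1, fun j j' hj => ?_⟩
  · have h1 := (hp j).1
    have h3 : (4 : ℝ) ^ e j * (ε * nrs H (x j)) ≤ 4 ^ e j * cH D f (xs (x j)) :=
      mul_le_mul_of_nonneg_left (hx j).2.2 (by positivity)
    have h4 := mul_le_mul_of_nonneg_left h1 hε.le
    nlinarith
  · have h1 := (hp j).1
    have h2 := (hp j').2
    have h3 := hgr j j' hj
    have hj0 : 0 < nrs H (x j) := by linarith [hR j]
    have hq : (0 : ℝ) < 4 ^ e j := by positivity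
    have hq' : (0 : ℝ) < 4 ^ e j' := by positivity
    have h4 : (4 : ℝ) ^ e j' * (K0 * nrs H (x j)) ≤ 4 ^ e j' * nrs H (x j') :=
      mul_le_mul_of_nonneg_left h3 hq'.le
    have h5 : (4 : ℝ) ^ e j' * K0 * nrs H (x j) ≤ 16 / 9 * 4 ^ e j * nrs H (x j) := by nlinarith
    have h6 := le_of_mul_le_mul_right h5 hj0
    nlinarith

/-- quotients: `4^(e0)/4^(ej) ≤ (16/9) N_j / N_0` -/
theorem ratio_num (a b T p q C η : ℝ) (ha : 0 < a) (_hb : 0 < b) (hT : 0 < T) (hq : 0 < q)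
    (hC : 0 ≤ C) (hη : 0 < η) (hR : 2 * (C + 1) / η ≤ a) (h1 : p * a ≤ 4 / 3 * T)
    (h2 : 3 / 4 * T ≤ q * b) : C * (p / q) ≤ η * b := by
  rw [div_le_iff₀ hη] at hR
  rw [← mul_div_assoc, div_le_iff₀ hq]
  have h3 : C * p * a ≤ C * (4 / 3 * T) := by nlinarith
  have h4 : C * (4 / 3 * T) ≤ η * (q * b) * a := by
    have : (C + 1) * 2 * (3 / 4 * T) ≤ η * (q * b) * a := by
      have e1 : η * (q * b) * a = (a * η) * (q * b) := by ring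
      rw [e1]
      exact mul_le_mul (by linarith) h2 (by positivity) (by nlinarith)
    nlinarith
  have h5 : C * p * a ≤ (η * b * q) * a := by
    have e1 : η * (q * b) * a = (η * b * q) * a := by ring
    linarith [e1 ▸ h4]
  exact le_of_mul_le_mul_right h5 ha

/-- the sequence along the ultrafilter -/
structure Ctx {K : Type} [Field K] [NumberField K] [DecidableEq K] {σ : Type} [Fintype σ]
    {W : σ → Affine K} (H : ∀ i, (W i).Point → ℝ) (D : ℕ) {ι : Type}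
    (f : ι → MvPolynomial σ K) (ε : ℝ) (y : ℕ → ∀ i, (W i).Point) (U : Ultrafilter ℕ) :
    Prop where
  ex : ∀ k, (∀ i, y k i ≠ 0 ∧ ps (y k i) ≠ 0) ∧ (∃ t, eval (xs (y k)) (f t) ≠ 0) ∧
    ε * nrs H (y k) ≤ cH D f (xs (y k))
  gen : ∀ Z : MvPolynomial σ K, Z ≠ 0 → ∀ᶠ k in (U : Filter ℕ), eval (xs (y k)) Z ≠ 0
  big : ∀ R : ℝ, ∀ᶠ k in (U : Filter ℕ), R ≤ nrs H (y k)
  al : ∀ θ K0 : ℝ, 0 < θ → ∀ᶠ i in (U : Filter ℕ), ∀ᶠ j in (U : Filter ℕ),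
    K0 * nrs H (y i) ≤ nrs H (y j) ∧
      ∃ e : ℕ, nrs H ((2 ^ e) • y i - y j) ≤ θ ^ 2 * nrs H (y j)

/-- no low relation in the variables of `I` -/
def Free {K : Type} [Field K] [NumberField K] {σ : Type} [Fintype σ]
    {W : σ → Affine K} (H : ∀ i, (W i).Point → ℝ) (y : ℕ → ∀ i, (W i).Point)
    (U : Ultrafilter ℕ) (I : Finset σ) : Prop :=
  ∀ D' : ℕ, ∃ η : ℝ, 0 < η ∧ ∀ᶠ k in (U : Filter ℕ),
    ¬ Lo I D' (η * nrs H (y k)) (xs (y k))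

theorem not_free {K : Type} [Field K] [NumberField K] {σ : Type} [Fintype σ]
    {W : σ → Affine K} {H : ∀ i, (W i).Point → ℝ} {y : ℕ → ∀ i, (W i).Point}
    {U : Ultrafilter ℕ} {I : Finset σ} (h : ¬ Free H y U I) :
    ∃ D' : ℕ, ∀ η : ℝ, 0 < η → ∀ᶠ k in (U : Filter ℕ),
      Lo I D' (η * nrs H (y k)) (xs (y k)) := by
  unfold Free at h
  push Not at h
  obtain ⟨D', hD'⟩ := h
  exact ⟨D', hD'⟩

section univ

variable {K : Type} [Field K] [NumberField K] [DecidableEq K] {σ : Type} [Fintype σ]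
  [DecidableEq σ] (W : σ → Affine K) (hW : ∀ i, (W i).IsElliptic) (H : ∀ i, (W i).Point → ℝ)
  (c₀ : ℝ) (hH : ∀ i, CanH (W i) (H i) c₀) (D : ℕ) (ι : Type) [Fintype ι]
  (f : ι → MvPolynomial σ K) (hf : ∀ j i, degreeOf i (f j) ≤ D) (hc : CodimGT D f 1)
  (ε : ℝ) (hε : 0 < ε) (y : ℕ → ∀ i, (W i).Point) (U : Ultrafilter ℕ)
  (hctx : Ctx H D f ε y U)

include hW hH hf hc hε hctx

theorem not_free_univ (hP1 : S_P1) (hEXTR : S_EXTR) (hQTR : QTR) (hQ : IsQuad (nrs H))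
    (hcard : 2 ≤ Fintype.card σ) : ¬ Free H y U Finset.univ := by
  classical
  intro hFree
  obtain ⟨n, D', C', θ, K1, hθ, hC', h1⟩ := hP1 K σ W hW H c₀ hH D ι f hf hc hcard (ε / 2)
    (half_pos hε)
  obtain ⟨η, hη, hlo⟩ := hFree D'
  set θs := min (1 / 8) θ with hθs
  have hθs0 : 0 < θs := lt_min (by norm_num) hθ
  have hθs8 : θs ≤ 1 / 8 := min_le_left _ _
  have hθs1 : θs ^ 2 ≤ θ := by
    have : θs ≤ θ := min_le_right _ _
    nlinarith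
  set K1' := max 1 K1 with hK1'
  have hK11 : 1 ≤ K1' := le_max_left _ _
  set K0 := max (2 * K1') (2 * (C' + 1) / η) with hK0
  have hK00 : 2 * K1' ≤ K0 := le_max_left _ _
  have hK01 : 2 * (C' + 1) / η ≤ K0 := le_max_right _ _
  have hK0p : 0 < K0 := by linarith
  obtain ⟨g, hP, hR⟩ := hEXTR U
    (fun k => K0 ≤ nrs H (y k) ∧ ¬ Lo Finset.univ D' (η * nrs H (y k)) (xs (y k)))
    (fun i j => K0 * nrs H (y i) ≤ nrs H (y j) ∧
      ∃ e : ℕ, nrs H ((2 ^ e) • y i - y j) ≤ θs ^ 2 * nrs H (y j))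
    ((hctx.big K0).and hlo) (hctx.al θs K0 hθs0) (n + 1)
  have hjn : ∀ j : Fin (n + 1), j.val < n + 1 := fun j => j.2
  choose e he using fun j : Fin (n + 1) => (hR j.val (n + 1) (hjn j) le_rfl).2
  have hT0 : 0 < nrs H (y (g (n + 1))) := lt_of_lt_of_le hK0p (hP (n + 1) le_rfl).1
  obtain ⟨hp, hAl⟩ := al_of2 hQTR H hQ D f θs K0 θ ε K1' hK11 hK00 hθs0.le hθs8 hθs1 hε (n + 1)
    (fun j => y (g j.val)) (y (g (n + 1))) e (fun j => hctx.ex _) (hctx.ex _).1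
    (fun j => (hP j.val (hjn j).le).1) (fun j => (hR j.val (n + 1) (hjn j) le_rfl).1)
    (fun j j' hj => (hR j.val j'.val hj (hjn j').le).1) he
  have hAl' := hAl.mono hT0.le le_rfl le_rfl (le_max_right 1 K1)
  have hpos : ∀ j : Fin (n + 1), 0 < nrs H (y (g j.val)) := fun j =>
    lt_of_lt_of_le hK0p (hP j.val (hjn j).le).1
  have hbig0 : 2 * (C' + 1) / η ≤ nrs H (y (g (0 : Fin (n + 1)).val)) :=
    hK01.trans (hP _ (hjn 0).le).1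
  rcases h1 _ _ _ _ hAl' with ⟨j, hj⟩ | hj
  · refine (hP j.val (hjn j).le).2 ?_
    obtain ⟨G, a1, a2, a3, a4, a5⟩ := hj
    refine ⟨G, a1, a2, a3, a4, a5.trans ?_⟩
    exact ratio_num _ _ _ _ _ C' η (hpos 0) (hpos j) hT0 (by positivity) hC' hη hbig0
      (hp 0).2 (hp j).1
  · refine (hP (n + 1) le_rfl).2 ?_
    obtain ⟨G, a1, a2, a3, a4, a5⟩ := hj
    refine ⟨G, a1, a2, a3, a4, a5.trans ?_⟩
    have := ratio_num _ (nrs H (y (g (n + 1)))) (nrs H (y (g (n + 1)))) _ 1 C' η (hpos 0) hT0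
      hT0 one_pos hC' hη hbig0 (hp 0).2 (by linarith)
    simpa using this

theorem free_of_card (hP2 : S_P2) (hEXTR : S_EXTR) (hQTR : QTR) (hNORT : S_NORT)
    (hLOR : S_LOR) (hQ : IsQuad (nrs H)) (hcard : Fintype.card σ = 3) :
    ∃ I : Finset σ, I.card = 2 ∧ Free H y U I := by
  classical
  by_contra hno
  push Not at hno
  have h0 : ∀ I : {I : Finset σ // I.card = 2}, ∃ D' : ℕ, ∀ η : ℝ, 0 < η →
      ∀ᶠ k in (U : Filter ℕ), Lo I.1 D' (η * nrs H (y k)) (xs (y k)) := fun I =>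
    not_free (hno I.1 I.2)
  choose D1 hD1 using h0
  set D0 := Finset.univ.sup D1 with hD0
  have hD0' : ∀ I, D1 I ≤ D0 := fun I => Finset.le_sup (Finset.mem_univ I)
  obtain ⟨D', C', θ, K1, hθ, hC', h2⟩ := hP2 K σ W hW H c₀ hH D 1 ι f hf hc (by omega) (ε / 2) D0
    1 (half_pos hε) zero_le_one
  obtain ⟨Z2, hZ2, hN2⟩ := hNORT K σ D' C'
  set θs := min (1 / 8) θ with hθs
  have hθs0 : 0 < θs := lt_min (by norm_num) hθ
  have hθs8 : θs ≤ 1 / 8 := min_le_left _ _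
  have hθs1 : θs ^ 2 ≤ θ := by
    have : θs ≤ θ := min_le_right _ _
    nlinarith
  set K1' := max 1 K1 with hK1'
  have hK11 : 1 ≤ K1' := le_max_left _ _
  set K0 := 2 * K1' with hK0
  have hK0p : 0 < K0 := by linarith
  have hlow : ∀ᶠ i in (U : Filter ℕ), ∀ᶠ j in (U : Filter ℕ),
      ∀ I : {I : Finset σ // I.card = 2}, Lo I.1 D0 (3 / 4 * nrs H (y j) / nrs H (y i))
        (xs (y j)) := by
    filter_upwards [hctx.big 1] with i hi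
    rw [eventually_all]
    intro I
    have hi0 : 0 < nrs H (y i) := by linarith
    filter_upwards [hD1 I (3 / 4 / nrs H (y i)) (by positivity)] with j hj
    refine (hLOR K σ _).1 _ _ _ _ _ _ subset_rfl (hD0' I) ?_ hj
    rw [div_mul_eq_mul_div]
  obtain ⟨g, hP, hR⟩ := hEXTR U
    (fun k => K0 ≤ nrs H (y k) ∧ eval (xs (y k)) Z2 ≠ 0)
    (fun i j => (K0 * nrs H (y i) ≤ nrs H (y j) ∧
      ∃ e : ℕ, nrs H ((2 ^ e) • y i - y j) ≤ θs ^ 2 * nrs H (y j)) ∧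
      ∀ I : {I : Finset σ // I.card = 2}, Lo I.1 D0 (3 / 4 * nrs H (y j) / nrs H (y i))
        (xs (y j)))
    ((hctx.big K0).and (hctx.gen Z2 hZ2))
    (by
      filter_upwards [hctx.al θs K0 hθs0, hlow] with i h3 h4
      exact h3.and h4) 1
  obtain ⟨⟨hg1, e, he⟩, hl1⟩ := hR 0 1 zero_lt_one le_rfl
  have hp0 := hP 0 (by norm_num)
  have hp1 := hP 1 le_rfl
  have hT0 : 0 < nrs H (y (g 1)) := lt_of_lt_of_le hK0p hp1.1
  have ha0 : 0 < nrs H (y (g 0)) := lt_of_lt_of_le hK0p hp0.1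
  obtain ⟨hp, hAl⟩ := al_of2 hQTR H hQ D f θs K0 θ ε K1' hK11 le_rfl hθs0.le hθs8 hθs1 hε 1
    (fun _ => y (g 0)) (y (g 1)) (fun _ => e) (fun _ => hctx.ex _) (hctx.ex _).1
    (fun _ => hp0.1) (fun _ => hg1)
    (fun j j' hj => absurd hj (by rw [Subsingleton.elim j j']; exact lt_irrefl _)) (fun _ => he)
  have hAl' := hAl.mono hT0.le le_rfl le_rfl (le_max_right 1 K1)
  have hle : 3 / 4 * nrs H (y (g 1)) / nrs H (y (g 0)) ≤ 1 * (4 : ℝ) ^ e := by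
    rw [div_le_iff₀ ha0, one_mul]
    exact (hp 0).1
  have hall : ∀ I : Finset σ, I.card = 1 + 1 → Lo I D0 (1 * (4 : ℝ) ^ e) (xs (y (g 1))) :=
    fun I hI => (hLOR K σ _).1 _ _ _ _ _ _ subset_rfl le_rfl hle (hl1 ⟨I, hI⟩)
  obtain ⟨I0, hI0c, hI0, hI0i⟩ := (hLOR K σ (xs (y (g 1)))).2.2.2 _ D0 _ hall
  obtain ⟨p, hp0', hpd, -, hpe, hpA⟩ := h2 I0 _ _ _ _ hI0c hAl' hI0 hI0i
  obtain ⟨q, hq⟩ := hN2 p hp0' hpd hpA
  refine hp0.2 ?_
  rw [hq, map_mul, hpe, zero_mul]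

end univ

end

end Pool.Agent.Helper60.T3
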