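import Pool.Agent.Helper60.T3.End1

/-!
# Project T3: END, part 2 (the surfaces `h_k`, theorem P3, flatness)
-/

set_option autoImplicit false

open MvPolynomial Filter

namespace Pool.Agent.Helper60.T3

open WeierstrassCurve Height Height.AdmissibleAbsValues
open Pool.Agent.Helper29.BL Pool.Agent.Helper92.Ru Pool.Agent.Helper42.SG
open Pool.Agent.Helper5.UN (hv CodimGT cH)
open Pool.Agent.Helper60.HC (Lo Al xs nrs S_P1 S_P2 S_NORT S_LOR)
open Pool.Agent.Helper92.SGE (QTR)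

noncomputable section

theorem log_PH_nonneg {K : Type} [Field K] [NumberField K] {σ : Type} (h : MvPolynomial σ K) :
    0 ≤ Real.log (PH h) := Real.log_nonneg (Height.one_le_mulHeight _)

/-- an element of almost minimal height -/
theorem exists_min1 {α : Type} (S : α → Prop) (φ : α → ℝ) (h0 : ∀ a, 0 ≤ φ a) (hS : ∃ a, S a) :
    ∃ a, S a ∧ ∀ b, S b → φ a ≤ φ b + 1 := by
  classical
  have hex : ∃ m : ℕ, ∃ a, S a ∧ φ a ≤ m := by
    obtain ⟨a, ha⟩ := hS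
    obtain ⟨m, hm⟩ := exists_nat_ge (φ a)
    exact ⟨m, a, ha, hm⟩
  obtain ⟨a, ha, ham⟩ := Nat.find_spec hex
  refine ⟨a, ha, fun b hb => ?_⟩
  rcases Nat.eq_zero_or_pos (Nat.find hex) with hz | hpos
  · have h1 := h0 b
    rw [hz] at ham
    simp at ham
    linarith
  · have h1 := Nat.find_min hex (Nat.sub_lt hpos one_pos)
    push Not at h1
    have h2 := h1 b hb
    rw [Nat.cast_sub (Nat.one_le_iff_ne_zero.2 hpos.ne')] at h2
    push_cast at h2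
    linarith

section surf

variable {K : Type} [Field K] [NumberField K] [DecidableEq K] {σ : Type} [Fintype σ]
  [DecidableEq σ] {W : σ → Affine K} (H : ∀ i, (W i).Point → ℝ) (D : ℕ) {ι : Type}
  (f : ι → MvPolynomial σ K) (ε : ℝ) (y : ℕ → ∀ i, (W i).Point) (U : Ultrafilter ℕ)

/-- the surfaces -/
structure Surf (D1 : ℕ) (h : ℕ → MvPolynomial σ K) : Prop where
  irr : ∀ᶠ k in (U : Filter ℕ), Irreducible (h k) ∧ (∀ i, (h k).degreeOf i ≤ D1) ∧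
    eval (xs (y k)) (h k) = 0
  low : ∀ η : ℝ, 0 < η → ∀ᶠ k in (U : Filter ℕ), 1 + Real.log (PH (h k)) ≤ η * nrs H (y k)

theorem exists_surf (hFACT : S_FACT) (hctx : Ctx H D f ε y U)
    (hnf : ¬ Free H y U Finset.univ) :
    ∃ (D1 : ℕ) (h : ℕ → MvPolynomial σ K), Surf H y U D1 h := by
  classical
  obtain ⟨D1, hD1⟩ := not_free hnf
  obtain ⟨CF, hCF, hfac⟩ := hFACT K σ D1
  set S : ℕ → MvPolynomial σ K → Prop := fun k h =>
    Irreducible h ∧ (∀ i, h.degreeOf i ≤ D1) ∧ eval (xs (y k)) h = 0 with hS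
  have hsel : ∀ k, ∃ h, (∃ h', S k h') → S k h ∧ ∀ h', S k h' →
      Real.log (PH h) ≤ Real.log (PH h') + 1 := by
    intro k
    by_cases hk : ∃ h', S k h'
    · obtain ⟨h, h1, h2⟩ := exists_min1 (S k) (fun h => Real.log (PH h)) log_PH_nonneg hk
      exact ⟨h, fun _ => ⟨h1, h2⟩⟩
    · exact ⟨0, fun h => absurd h hk⟩
  choose h hh using hsel
  have hex : ∀ η : ℝ, 0 < η → ∀ᶠ k in (U : Filter ℕ), ∃ h', S k h' ∧
      Real.log (PH h') ≤ η * nrs H (y k) + CF := by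
    intro η hη
    filter_upwards [hD1 η hη] with k hk
    obtain ⟨g, g0, gd, -, ge, gA⟩ := hk
    obtain ⟨h', a1, a2, a3, -, a4⟩ := hfac g (xs (y k)) g0 gd ge
    exact ⟨h', ⟨a1, a2, a3⟩, by linarith⟩
  refine ⟨D1, h, ?_, fun η hη => ?_⟩
  · filter_upwards [hex 1 one_pos] with k hk
    obtain ⟨h', h1, -⟩ := hk
    exact (hh k ⟨h', h1⟩).1
  · filter_upwards [hex (η / 2) (half_pos hη), hctx.big (2 * (CF + 2) / η)] with k hk hR
    obtain ⟨h', h1, h2⟩ := hk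
    have h3 := (hh k ⟨h', h1⟩).2 h' h1
    rw [div_le_iff₀ hη] at hR
    nlinarith

variable (W)

/-- (2a): the slopes differ -/
theorem slopes_agree (hP3 : S_P3) (hEXTR : S_EXTR) (hQTR : QTR) (hNORT : S_NORT)
    (hQ : IsQuad (nrs H)) (hW : ∀ i, (W i).IsElliptic) (c₀ : ℝ)
    (hH : ∀ i, CanH (W i) (H i) c₀) [Fintype ι] (hf : ∀ j i, degreeOf i (f j) ≤ D)
    (hc : CodimGT D f 1) (hε : 0 < ε) (hctx : Ctx H D f ε y U) (hcard : Fintype.card σ = 3)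
    (i' : σ) (hFree : Free H y U (Finset.univ.erase i')) (D1 : ℕ) (h : ℕ → MvPolynomial σ K)
    (hs : Surf H y U D1 h) :
    ∀ᶠ b in (U : Filter ℕ), ∀ᶠ c in (U : Filter ℕ), ∀ i0,
      NN W (h b) (xs (y b)) i0 * NN W (h c) (xs (y c)) i' =
        NN W (h c) (xs (y c)) i0 * NN W (h b) (xs (y b)) i' := by
  classical
  by_contra hno
  have hno' : ∀ᶠ b in (U : Filter ℕ), ∀ᶠ c in (U : Filter ℕ), ∃ i0,
      NN W (h b) (xs (y b)) i0 * NN W (h c) (xs (y c)) i' ≠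
        NN W (h c) (xs (y c)) i0 * NN W (h b) (xs (y b)) i' := by
    rw [← Ultrafilter.eventually_not] at hno
    filter_upwards [hno] with b hb
    rw [← Ultrafilter.eventually_not] at hb
    filter_upwards [hb] with c hc'
    push Not at hc'
    exact hc'
  obtain ⟨D', C', θ, K1, hθ, hC', h3⟩ := hP3 K σ W hW H c₀ hH hcard D ι f hf hc (ε / 2) D1 1
    (half_pos hε) zero_le_one
  obtain ⟨Z2, hZ2, hN2⟩ := hNORT K σ D' C'
  obtain ⟨η, hη, hlo⟩ := hFree D'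
  set θs := min (1 / 8) θ with hθs
  have hθs0 : 0 < θs := lt_min (by norm_num) hθ
  have hθs8 : θs ≤ 1 / 8 := min_le_left _ _
  have hθs1 : θs ^ 2 ≤ θ := by
    have : θs ≤ θ := min_le_right _ _
    nlinarith
  set K1' := max 1 K1 with hK1'
  have hK11 : 1 ≤ K1' := le_max_left _ _
  set K0 := max (2 * K1') (2 * (C' + 1) / η) with hK0
  have hK00 : 2 * K1' ≤ K0 := le_max_left _ _
  have hK01 : 2 * (C' + 1) / η ≤ K0 := le_max_right _ _
  have hK0p : 0 < K0 := by linarith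
  have hlow : ∀ᶠ i in (U : Filter ℕ), ∀ᶠ j in (U : Filter ℕ),
      Real.log (PH (h j)) ≤ 1 / 2 * nrs H (y j) / nrs H (y i) := by
    filter_upwards [hctx.big 1] with i hi
    have hi0 : 0 < nrs H (y i) := by linarith
    filter_upwards [hs.low (1 / 2 / nrs H (y i)) (by positivity)] with j hj
    rw [div_mul_eq_mul_div] at hj
    linarith
  obtain ⟨g, hP, hR⟩ := hEXTR U
    (fun k => (K0 ≤ nrs H (y k) ∧ eval (xs (y k)) Z2 ≠ 0) ∧
      (¬ Lo (Finset.univ.erase i') D' (η * nrs H (y k)) (xs (y k)) ∧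
        (Irreducible (h k) ∧ (∀ i, (h k).degreeOf i ≤ D1) ∧ eval (xs (y k)) (h k) = 0)))
    (fun i j => ((K0 * nrs H (y i) ≤ nrs H (y j) ∧
      ∃ e : ℕ, nrs H ((2 ^ e) • y i - y j) ≤ θs ^ 2 * nrs H (y j)) ∧
      Real.log (PH (h j)) ≤ 1 / 2 * nrs H (y j) / nrs H (y i)) ∧
      ∃ i0, NN W (h i) (xs (y i)) i0 * NN W (h j) (xs (y j)) i' ≠
        NN W (h j) (xs (y j)) i0 * NN W (h i) (xs (y i)) i')
    (((hctx.big K0).and (hctx.gen Z2 hZ2)).and (hlo.and hs.irr))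
    (by
      filter_upwards [hctx.al θs K0 hθs0, hlow, hno'] with i h5 h6 h7
      exact (h5.and h6).and h7) 2
  obtain ⟨⟨⟨h01, e01, he01⟩, hl01⟩, hs01⟩ := hR 0 1 (by norm_num) (by norm_num)
  obtain ⟨⟨⟨h02, e02, he02⟩, hl02⟩, hs02⟩ := hR 0 2 (by norm_num) le_rfl
  obtain ⟨⟨⟨h12, e12, he12⟩, hl12⟩, hs12⟩ := hR 1 2 (by norm_num) le_rfl
  obtain ⟨⟨p0K, p0Z⟩, p0L, p0i, p0d, p0e⟩ := hP 0 (by norm_num)
  obtain ⟨⟨p1K, p1Z⟩, p1L, p1i, p1d, p1e⟩ := hP 1 (by norm_num)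
  obtain ⟨⟨p2K, p2Z⟩, p2L, p2i, p2d, p2e⟩ := hP 2 le_rfl
  set N0 := nrs H (y (g 0)) with hN0
  set N1 := nrs H (y (g 1)) with hN1
  set T := nrs H (y (g 2)) with hT
  have n0 : 0 < N0 := lt_of_lt_of_le hK0p p0K
  have n1 : 0 < N1 := lt_of_lt_of_le hK0p p1K
  have nT : 0 < T := lt_of_lt_of_le hK0p p2K
  obtain ⟨hp, hAl⟩ := al_of2 hQTR H hQ D f θs K0 θ ε K1' hK11 hK00 hθs0.le hθs8 hθs1 hε 1
    (fun _ => y (g 0)) (y (g 2)) (fun _ => e02) (fun _ => hctx.ex _) (hctx.ex _).1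
    (fun _ => p0K) (fun _ => h02)
    (fun j j' hj => absurd hj (by rw [Subsingleton.elim j j']; exact lt_irrefl _)) (fun _ => he02)
  have hAl' := hAl.mono nT.le le_rfl le_rfl (le_max_right 1 K1)
  obtain ⟨a1, a2⟩ := hp 0
  obtain ⟨b1, b2⟩ := pair_qtr hQTR (nrs H) hQ e12 (y (g 1)) (y (g 2)) θs hθs0.le hθs8 he12
  have q0 : (0 : ℝ) < 4 ^ e02 := by positivity
  have q1 : (0 : ℝ) < 4 ^ e12 := by positivity
  obtain ⟨c1, c2, c3⟩ := pair_num N1 T (4 ^ e12) K0 K1' hK11 hK00 p1K h12 q1 b1 b2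
  have hgrow : K1 * (4 : ℝ) ^ e12 ≤ 4 ^ e02 := by
    have h4 : (4 : ℝ) ^ e12 * (K0 * N0) ≤ 4 ^ e12 * N1 := mul_le_mul_of_nonneg_left h01 q1.le
    have h5 : (4 : ℝ) ^ e12 * K0 * N0 ≤ 16 / 9 * 4 ^ e02 * N0 := by nlinarith
    have h6 := le_of_mul_le_mul_right h5 n0
    have h7 : K1 ≤ K1' := le_max_right _ _
    nlinarith
  have hh2 : Real.log (PH (h (g 1))) ≤ 1 * ((4 : ℝ) ^ e02 / 4 ^ e12) := by
    refine hl01.trans ?_
    rw [one_mul, div_le_div_iff₀ n0 q1]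
    nlinarith
  have hh0 : Real.log (PH (h (g 2))) ≤ 1 * (4 : ℝ) ^ e02 := by
    refine hl02.trans ?_
    rw [one_mul, div_le_iff₀ n0]
    nlinarith
  have hK0a : 2 * (C' + 1) / η ≤ N0 := hK01.trans p0K
  rcases h3 i' (fun _ => y (g 0)) (y (g 1)) (y (g 2)) (fun _ => e02) e12 T (h (g 1)) (h (g 2))
    hAl' (hctx.ex _).1 c3 (he12.trans (mul_le_mul_of_nonneg_right hθs1 nT.le))
    ((le_max_right 1 K1).trans c1) hgrow p1i p2i p1d p2d hh2 hh0 p1e p2e hs12 with hA | hA | hA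
  · obtain ⟨p, hp0', hpd, -, hpe, hpA⟩ := hA
    obtain ⟨q, hq⟩ := hN2 p hp0' hpd hpA
    refine p0Z ?_
    rw [hq, map_mul, hpe, zero_mul]
  · obtain ⟨G, a1', a2', a3', a4', a5'⟩ := hA
    refine p1L ⟨G, a1', a2', a3', a4', a5'.trans ?_⟩
    exact ratio_num N0 N1 T _ _ C' η n0 n1 nT q1 hC' hη hK0a a2 b1
  · obtain ⟨G, a1', a2', a3', a4', a5'⟩ := hA
    refine p2L ⟨G, a1', a2', a3', a4', a5'.trans ?_⟩
    have := ratio_num N0 T T (4 ^ e02) 1 C' η n0 nT nT one_pos hC' hη hK0a a2 (by linarith)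
    simpa using this

end surf

end

end Pool.Agent.Helper60.T3
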