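import Pool.Agent.Helper60.T3.End2

/-!
# Project T3: END, part 3 (flatness)
-/

set_option autoImplicit false

open MvPolynomial Filter

namespace Pool.Agent.Helper60.T3

open WeierstrassCurve Height Height.AdmissibleAbsValues
open Pool.Agent.Helper29.BL Pool.Agent.Helper92.Ru Pool.Agent.Helper42.SG
open Pool.Agent.Helper5.UN (hv CodimGT cH)
open Pool.Agent.Helper60.HC (Lo Al xs nrs S_P1 S_P2 S_NORT S_LOR)
open Pool.Agent.Helper92.SGE (QTR)

noncomputable section

/-- a polynomial does not divide its derivative -/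
theorem not_dvd_pderiv {K : Type} [Field K] [CharZero K] {σ : Type} [DecidableEq σ]
    (h : MvPolynomial σ K) (i : σ) (hd : h.degreeOf i ≠ 0) :
    pderiv i h ≠ 0 ∧ ¬ h ∣ pderiv i h := by
  classical
  have hh : h ≠ 0 := fun h0 => hd (by rw [h0, degreeOf_zero])
  obtain ⟨m, hm, hmd⟩ : ∃ m ∈ h.support, m i = h.degreeOf i := by
    have hne : h.support.Nonempty := support_nonempty.2 hh
    obtain ⟨m, hm, he⟩ := Finset.exists_mem_eq_sup h.support hne (fun m => m i)
    exact ⟨m, hm, by rw [degreeOf_eq_sup]; exact he.symm⟩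
  have hm0 : m i ≠ 0 := by rw [hmd]; exact hd
  obtain ⟨m1, hm1⟩ : ∃ m1 : σ →₀ ℕ, m = m1 + Finsupp.single i 1 := by
    refine ⟨m - Finsupp.single i 1, (tsub_add_cancel_of_le ?_).symm⟩
    rw [Finsupp.single_le_iff]
    omega
  have hcoe : coeff m1 (pderiv i h) = coeff m h * ((m1 i : K) + 1) := by
    rw [MvPolynomial.coeff_pderiv, hm1]
  have hne : pderiv i h ≠ 0 := by
    intro h0
    rw [h0, coeff_zero] at hcoe
    rcases mul_eq_zero.1 hcoe.symm with h1 | h1
    · exact (mem_support_iff.1 hm) h1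
    · exact (Nat.cast_add_one_ne_zero (R := K) (m1 i)) h1
  refine ⟨hne, fun hdv => ?_⟩
  obtain ⟨q, hq⟩ := hdv
  have hq0 : q ≠ 0 := fun h0 => hne (by rw [hq, h0, mul_zero])
  have h1 : (pderiv i h).degreeOf i = h.degreeOf i + q.degreeOf i := by
    rw [hq, degreeOf_mul_eq hh hq0]
  have h2 : (pderiv i h).degreeOf i < h.degreeOf i := by
    rw [degreeOf_lt_iff (Nat.pos_of_ne_zero hd)]
    intro m' hm'
    rw [mem_support_iff, MvPolynomial.coeff_pderiv] at hm'
    have h3 : m' + Finsupp.single i 1 ∈ h.support := by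
      rw [mem_support_iff]
      exact left_ne_zero_of_mul hm'
    have h4 := monomial_le_degreeOf i h3
    rw [Finsupp.add_apply, Finsupp.single_eq_same] at h4
    omega
  omega

section flat

variable {K : Type} [Field K] [NumberField K] [DecidableEq K] {σ : Type} [Fintype σ]
  [DecidableEq σ] {W : σ → Affine K} (H : ∀ i, (W i).Point → ℝ) (D : ℕ) {ι : Type}
  (f : ι → MvPolynomial σ K) (ε : ℝ) (y : ℕ → ∀ i, (W i).Point) (U : Ultrafilter ℕ)

theorem eval_gsl (W : σ → Affine K) (n : σ → K) (h : MvPolynomial σ K) (i k : σ) (x : σ → K) :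
    eval x (gsl W n h i k) = n k * NN W h x i - n i * NN W h x k := by
  unfold gsl NN
  have e1 : ∀ j, eval x (Polynomial.aeval (X j : MvPolynomial σ K)
      (bch W (fun _ => true) j)) = Bf (W j) (x j) := by
    intro j
    unfold bch Bf
    rw [if_pos rfl, ← aeval_eq_eval, ← Polynomial.aeval_algHom_apply, aeval_X]
    simp [Polynomial.aeval_def]
  simp only [map_sub, map_mul, eval_C, map_pow, e1]

/-- low relations in `I` are excluded -/
theorem free_no_low {I : Finset σ} (hctx : Ctx H D f ε y U) (hFree : Free H y U I) (D' : ℕ)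
    (C : ℝ) (hC : 0 ≤ C) (A : ℕ → ℝ)
    (hA : ∀ η : ℝ, 0 < η → ∀ᶠ k in (U : Filter ℕ), A k ≤ η * nrs H (y k)) :
    ∀ᶠ k in (U : Filter ℕ), ¬ Lo I D' (C * (1 + A k)) (xs (y k)) := by
  obtain ⟨η, hη, hlo⟩ := hFree D'
  have h1 := hA (η / (2 * (C + 1))) (by positivity)
  filter_upwards [hlo, h1, hctx.big (2 * (C + 1) / η)] with k h2 h3 h4 h5
  refine h2 ?_
  obtain ⟨g, a1, a2, a3, a4, a5⟩ := h5
  refine ⟨g, a1, a2, a3, a4, a5.trans ?_⟩
  rw [div_le_iff₀ hη] at h4
  have h6 : C * A k ≤ (C + 1) * (η / (2 * (C + 1)) * nrs H (y k)) := by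
    rcases le_or_gt 0 (A k) with h7 | h7
    · nlinarith
    · have : C * A k ≤ 0 := mul_nonpos_of_nonneg_of_nonpos hC h7.le
      have h8 : 0 ≤ nrs H (y k) := by
        by_contra h9
        push Not at h9
        nlinarith
      have : 0 ≤ (C + 1) * (η / (2 * (C + 1)) * nrs H (y k)) := by positivity
      linarith
  have e1 : (C + 1) * (η / (2 * (C + 1)) * nrs H (y k)) = η * nrs H (y k) / 2 := by
    field_simp
  rw [e1] at h6
  nlinarith

variable (W)

theorem exists_flat (hRESL : S_RESL) (hHTF : S_HTF) (hW : ∀ i, (W i).IsElliptic)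
    (hEUP : EUP) (hctx : Ctx H D f ε y U) (i' : σ)
    (hFree : Free H y U (Finset.univ.erase i')) (D1 : ℕ) (h : ℕ → MvPolynomial σ K)
    (hs : Surf H y U D1 h)
    (hag : ∀ᶠ b in (U : Filter ℕ), ∀ᶠ c in (U : Filter ℕ), ∀ i0,
      NN W (h b) (xs (y b)) i0 * NN W (h c) (xs (y c)) i' =
        NN W (h c) (xs (y c)) i0 * NN W (h b) (xs (y b)) i') :
    ∃ n : σ → K, n i' ≠ 0 ∧ ∀ᶠ c in (U : Filter ℕ), Flat W n (h c) := by
  classical
  have hlowA : ∀ C : ℝ, 0 ≤ C → ∀ η : ℝ, 0 < η → ∀ᶠ k in (U : Filter ℕ),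
      C * (1 + Real.log (PH (h k))) ≤ η * nrs H (y k) := by
    intro C hC η hη
    filter_upwards [hs.low (η / (C + 1)) (by positivity)] with k hk
    have h1 := log_PH_nonneg (h k)
    have h2 : (C + 1) * (1 + Real.log (PH (h k))) ≤ (C + 1) * (η / (C + 1) * nrs H (y k)) :=
      mul_le_mul_of_nonneg_left hk (by positivity)
    have e1 : (C + 1) * (η / (C + 1) * nrs H (y k)) = η * nrs H (y k) := by
      field_simp
    rw [e1] at h2
    nlinarith
  -- the degree in X_i'
  have hdeg : ∀ᶠ k in (U : Filter ℕ), (h k).degreeOf i' ≠ 0 := by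
    have h1 := free_no_low H D f ε y U hctx hFree D1 1 zero_le_one
      (fun k => 1 * (1 + Real.log (PH (h k)))) (hlowA 1 zero_le_one)
    filter_upwards [h1, hs.irr] with k h2 h3 h4
    refine h2 ⟨h k, h3.1.ne_zero, h3.2.1, fun i hi => ?_, h3.2.2, ?_⟩
    · have : i = i' := by
        by_contra hne
        exact hi (Finset.mem_erase.2 ⟨hne, Finset.mem_univ _⟩)
      rw [this]; exact h4
    · have := log_PH_nonneg (h k)
      linarith
  -- NN ≠ 0 in the direction i'
  have hNN : ∀ᶠ k in (U : Filter ℕ), NN W (h k) (xs (y k)) i' ≠ 0 := by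
    obtain ⟨C, hC, hht⟩ := hHTF K σ W D1 (fun _ => 0)
    obtain ⟨D', C', hC', hres⟩ := hRESL K σ D1
    have h1 := free_no_low H D f ε y U hctx hFree D' C' hC'
      (fun k => (C + 1) * (1 + Real.log (PH (h k)))) (hlowA (C + 1) (by linarith))
    filter_upwards [h1, hs.irr, hdeg] with k h2 h3 h4 h5
    have hps := ((hctx.ex k).1 i')
    have hB : Bf (W i') (xs (y k) i') ≠ 0 := by
      have := hW i'
      have h6 := (hEUP K (W i')).1 (y k i') hps.1
      intro h7
      have h8 : ps (y k i') ^ 2 = 0 := by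
        rw [h6]; exact h7
      exact hps.2 (pow_eq_zero_iff (two_ne_zero)|>.1 h8)
    unfold NN at h5
    have hd : eval (xs (y k)) (pderiv i' (h k)) = 0 := by
      rcases mul_eq_zero.1 h5 with h6 | h6
      · exact absurd h6 hB
      · exact pow_eq_zero_iff (two_ne_zero) |>.1 h6
    obtain ⟨h6, h7⟩ := not_dvd_pderiv (h k) i' h4
    obtain ⟨h8, h9⟩ := (hht (h k) h3.1.ne_zero h3.2.1 i' i').1 h6
    have hl0 := log_PH_nonneg (h k)
    refine h2 (hres (h k) (pderiv i' (h k)) (xs (y k)) i' _ h3.1 h6 h7 h3.2.1 h8 h3.2.2 hd ?_ ?_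
      ?_)
    · nlinarith
    · nlinarith
    · nlinarith
  -- choose b
  obtain ⟨b, hb1, hb2⟩ := (hNN.and hag).exists
  set n : σ → K := fun i => NN W (h b) (xs (y b)) i with hn
  refine ⟨n, hb1, ?_⟩
  obtain ⟨C, hC, hht⟩ := hHTF K σ W D1 n
  obtain ⟨D', C', hC', hres⟩ := hRESL K σ (2 * D1 + 3)
  have h1 := free_no_low H D f ε y U hctx hFree D' C' hC'
    (fun k => (C + 1) * (1 + Real.log (PH (h k)))) (hlowA (C + 1) (by linarith))
  filter_upwards [h1, hs.irr, hb2] with k h2 h3 h4 i j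
  by_contra h5
  have hg : gsl W n (h k) i j ≠ 0 := fun h0 => h5 (by
    show h k ∣ gsl W n (h k) i j
    rw [h0]
    exact dvd_zero _)
  obtain ⟨h8, h9⟩ := (hht (h k) h3.1.ne_zero h3.2.1 i j).2 hg
  have hev : eval (xs (y k)) (gsl W n (h k) i j) = 0 := by
    rw [eval_gsl]
    have e1 := h4 i
    have e2 := h4 j
    have e3 : n i' * (n j * NN W (h k) (xs (y k)) i - n i * NN W (h k) (xs (y k)) j) = 0 := by
      have e1' : n i * NN W (h k) (xs (y k)) i' = NN W (h k) (xs (y k)) i * n i' := e1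
      have e2' : n j * NN W (h k) (xs (y k)) i' = NN W (h k) (xs (y k)) j * n i' := e2
      linear_combination n i * e2' - n j * e1'
    exact (mul_eq_zero.1 e3).resolve_left hb1
  have hl0 := log_PH_nonneg (h k)
  refine h2 (hres (h k) (gsl W n (h k) i j) (xs (y k)) i' _ h3.1 hg h5 (fun l => ?_) h8 h3.2.2 hev
    ?_ ?_ ?_)
  · exact (h3.2.1 l).trans (by omega)
  · nlinarith
  · nlinarith
  · nlinarith

end flat

end

end Pool.Agent.Helper60.T3
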