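import Pool.Agent.Helper60.T3.End3

/-!
# Project T3: END, part 4 (the moving centre)
-/

set_option autoImplicit false

open MvPolynomial Filter

namespace Pool.Agent.Helper60.T3

open WeierstrassCurve Height Height.AdmissibleAbsValues
open Pool.Agent.Helper29.BL Pool.Agent.Helper92.Ru Pool.Agent.Helper42.SG
open Pool.Agent.Helper5.UN (hv CodimGT cH)
open Pool.Agent.Helper60.HC (Lo Al xs nrs S_P1 S_P2 S_NORT S_LOR S_ELOC2)
open Pool.Agent.Helper92.SGE (QTR)
open Pool.Agent.Helper19.PM (cW wU)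

noncomputable section

theorem plc_prod' {K : Type} [Field K] [NumberField K] {τ : Type} [Fintype τ]
    (B : AbsoluteValue K ℝ → ℝ) (hB : PlC B) (S : τ → AbsoluteValue K ℝ → ℝ)
    (hS : ∀ i, PlC (S i)) :
    PlC (fun v => B v * ∏ i, S i v) ∧
      PS (fun v => Real.log (B v * ∏ i, S i v)) =
        PS (fun v => Real.log (B v)) + ∑ i, PS (fun v => Real.log (S i v)) := by
  have hlog : ∀ v, Real.log (B v * ∏ i, S i v) = Real.log (B v) + ∑ i, Real.log (S i v) := by
    intro v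
    have h1 : ∀ i, (0 : ℝ) < S i v := fun i => lt_of_lt_of_le one_pos ((hS i).one_le v)
    rw [Real.log_mul (lt_of_lt_of_le one_pos (hB.one_le v)).ne'
      (Finset.prod_ne_zero_iff.2 fun i _ => (h1 i).ne'), Real.log_prod (fun i _ => (h1 i).ne')]
  have hfs : FS (fun v => ∑ i, Real.log (S i v)) := FS.sum Finset.univ fun i _ => (hS i).fin
  refine ⟨⟨fun v => ?_, ?_⟩, ?_⟩
  · exact one_le_mul_of_one_le_of_one_le (hB.one_le v)
      (by
        have := Finset.prod_le_prod (s := (Finset.univ : Finset τ)) (f := fun _ => (1 : ℝ))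
          (g := fun i => S i v) (fun _ _ => zero_le_one) (fun i _ => (hS i).one_le v)
        simpa using this)
  · simp only [hlog]
    exact hB.fin.add hfs
  · simp only [hlog]
    rw [PS_add hB.fin hfs, PS_sum Finset.univ fun i _ => (hS i).fin]

section moving

variable {K : Type} [Field K] [NumberField K] [DecidableEq K] {σ : Type} [Fintype σ]
  [DecidableEq σ] (W : σ → Affine K) (H : ∀ i, (W i).Point → ℝ) (D : ℕ) {ι : Type}
  [Fintype ι] (f : ι → MvPolynomial σ K) (ε : ℝ) (y : ℕ → ∀ i, (W i).Point) (U : Ultrafilter ℕ)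

theorem exists_moving (hMOV : S_MOV) (hLEAFC : S_LEAFC) (hELOC2 : S_ELOC2) (hRST : S_RST)
    (hW : ∀ i, (W i).IsElliptic) (hf : ∀ j i, degreeOf i (f j) ≤ D) (hc : CodimGT D f 1)
    (hctx : Ctx H D f ε y U) (hcard : Fintype.card σ = 3) (i' : σ) (D1 : ℕ)
    (h : ℕ → MvPolynomial σ K) (hs : Surf H y U D1 h) (n : σ → K) (hn : n i' ≠ 0)
    (hflat : ∀ᶠ c in (U : Filter ℕ), Flat W n (h c)) :
    ∃ (D' : ℕ) (C' : ℝ), 1 ≤ D' ∧ 0 ≤ C' ∧ ∀ᶠ k in (U : Filter ℕ),
      ∃ (r : {i // i ∈ Finset.univ.erase i'} → MvPolynomial {i // i ∈ Finset.univ.erase i'} K)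
        (S : AbsoluteValue K ℝ → ℝ), (∀ i, r i ≠ 0) ∧
        (∀ i k, degreeOf k (r i) ≤ wU D' i k) ∧
        (∀ i m, logHeight₁ (coeff m (r i)) ≤ C' * (1 + Real.log (PH (h k)))) ∧ PlC S ∧
        PS (fun v => Real.log (S v)) ≤ C' * (1 + Real.log (PH (h k))) ∧
        ∀ (v : AbsoluteValue K ℝ) (i : {i // i ∈ Finset.univ.erase i'}),
          v (eval (fun i : {i // i ∈ Finset.univ.erase i'} => xs (y k) i.1) (r i)) ≤
            S v * Mv v (xs (y k) i.1) ^ D' *
              ((⨆ j, v (eval (xs (y k)) (f j))) / (∏ i, Mv v (xs (y k) i)) ^ D) := by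
  classical
  obtain ⟨E, B, hE, hB, hP⟩ := hELOC2 K σ 1 D ι f hf hc
  -- the third index
  have hthird : ∀ i : {i // i ∈ Finset.univ.erase i'}, ∃ k : σ, i.1 ≠ k ∧ k ≠ i' ∧ i.1 ≠ i' := by
    intro i
    have hi : i.1 ≠ i' := (Finset.mem_erase.1 i.2).1
    have h1 : ((Finset.univ.erase i').erase i.1).Nonempty := by
      rw [← Finset.card_pos, Finset.card_erase_of_mem i.2,
        Finset.card_erase_of_mem (Finset.mem_univ _), Finset.card_univ, hcard]
      norm_num
    obtain ⟨k, hk⟩ := h1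
    have h2 := Finset.mem_erase.1 hk
    exact ⟨k, h2.1.symm, (Finset.mem_erase.1 h2.2).1, hi⟩
  choose kk hkk1 hkk2 hii using hthird
  have hPc : ∀ a b : σ, a ≠ b → ∃ P : MvPolynomial σ K, P ≠ 0 ∧ (∀ i, P.degreeOf i ≤ E) ∧
      (∀ i, i ≠ a → i ≠ b → P.degreeOf i = 0) ∧ ∀ (v : AbsoluteValue K ℝ) (x : σ → K),
      v (eval x P) / (Mv v (x a) * Mv v (x b)) ^ E ≤
        B v * ((⨆ j, v (eval x (f j))) / (∏ i, Mv v (x i)) ^ D) := by
    intro a b hab
    obtain ⟨P, p1, p2, p3, p4⟩ := hP {a, b} (by rw [Finset.card_pair hab, hcard])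
    refine ⟨P, p1, p2, fun i hia hib => p3 i (by simp [hia, hib]), fun v x => ?_⟩
    have h1 := p4 v x
    rw [Finset.prod_pair hab] at h1
    have hM : (0 : ℝ) < ∏ i, Mv v (x i) := Finset.prod_pos fun i _ => Mv_pos v (x i)
    have hM2 : (0 : ℝ) < Mv v (x a) * Mv v (x b) := mul_pos (Mv_pos _ _) (Mv_pos _ _)
    rw [div_le_iff₀ (by positivity), ← mul_div_assoc, div_mul_eq_mul_div,
      le_div_iff₀ (by positivity)]
    calc v (eval x P) * (∏ i, Mv v (x i)) ^ D
        ≤ B v * (Mv v (x a) * Mv v (x b)) ^ E * ⨆ j, v (eval x (f j)) := h1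
      _ = _ := by ring
  choose pp hpp1 hpp2 hpp3 hpp4 using fun i : {i // i ∈ Finset.univ.erase i'} =>
    hPc i.1 (kk i) (hkk1 i)
  choose qq hqq1 hqq2 hqq3 hqq4 using fun i : {i // i ∈ Finset.univ.erase i'} =>
    hPc i.1 i' (hii i)
  choose D2 C2 Ξ hC2 hmov using fun i : {i // i ∈ Finset.univ.erase i'} =>
    hMOV K σ i.1 (kk i) i' (hkk1 i) (hii i) (hkk2 i) hcard E D1 (pp i) (qq i) hE (hpp1 i)
      (hqq1 i) (hpp2 i) (hqq2 i) (hpp3 i i' (hii i).symm (hkk2 i).symm)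
      (hqq3 i (kk i) (hkk1 i).symm (hkk2 i))
  -- the alternatives are excluded
  have hexc : ∀ᶠ k in (U : Filter ℕ), ∀ (i : {i // i ∈ Finset.univ.erase i'}),
      ∀ z ∈ Ξ i, aeval z.2 (rv z.1 (h k)) ≠ 0 := by
    rw [eventually_all]
    intro i
    have h1 : ∀ z ∈ Ξ i, ∀ᶠ k in (U : Filter ℕ), aeval z.2 (rv z.1 (h k)) ≠ 0 := by
      intro z _
      obtain ⟨F, hF0, hF⟩ := hLEAFC K σ W hW hcard n i' hn (AlgebraicClosure (RatFunc K)) z.1 z.2
      have h2 : ∀ᶠ k in (U : Filter ℕ), eval (xs (y k)) (∏ g ∈ F, g) ≠ 0 :=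
        hctx.gen _ (Finset.prod_ne_zero_iff.2 hF0)
      filter_upwards [h2, hflat, hs.irr] with k h3 h4 h5 h6
      obtain ⟨g, hg, q, hq⟩ := hF (h k) h5.1 h4 h6
      refine h3 ?_
      rw [map_prod]
      refine Finset.prod_eq_zero hg ?_
      rw [hq, map_mul, h5.2.2, zero_mul]
    rw [← Filter.eventually_all_finset] at h1
    exact h1
  -- constants
  set D' := max 1 (Finset.univ.sup D2) with hD'
  set C' := PS (fun v => Real.log (B v)) + ∑ i, C2 i with hC'
  have hPSB : 0 ≤ PS (fun v => Real.log (B v)) :=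
    PS_nonneg hB.fin fun v => Real.log_nonneg (hB.one_le v)
  have hC'0 : 0 ≤ C' := add_nonneg hPSB (Finset.sum_nonneg fun i _ => hC2 i)
  have hC2' : ∀ i, C2 i ≤ C' := fun i => by
    have := Finset.single_le_sum (f := C2) (fun j _ => hC2 j) (Finset.mem_univ i)
    linarith
  have hD2' : ∀ i, D2 i ≤ D' := fun i =>
    (Finset.le_sup (Finset.mem_univ i)).trans (le_max_right _ _)
  refine ⟨D', C', le_max_left _ _, hC'0, ?_⟩
  filter_upwards [hexc, hs.irr] with k h1 h2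
  have hl0 := log_PH_nonneg (h k)
  have h3 : ∀ i : {i // i ∈ Finset.univ.erase i'}, ∃ (r : MvPolynomial σ K)
      (S : AbsoluteValue K ℝ → ℝ), r ≠ 0 ∧
          (∀ l, r.degreeOf l ≤ if l = i.1 then D2 i else 0) ∧
          (∀ m, logHeight₁ (coeff m r) ≤ C2 i * (1 + Real.log (PH (h k)))) ∧ PlC S ∧
          PS (fun v => Real.log (S v)) ≤ C2 i * (1 + Real.log (PH (h k))) ∧
          ∀ (v : AbsoluteValue K ℝ) (x : σ → K), eval x (h k) = 0 →
            v (eval x r) ≤ S v * Mv v (x i.1) ^ D2 i *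
              max (v (eval x (pp i)) / (Mv v (x i.1) * Mv v (x (kk i))) ^ E)
                (v (eval x (qq i)) / (Mv v (x i.1) * Mv v (x i')) ^ E) := by
    intro i
    rcases hmov i (h k) h2.1 h2.2.1 with ⟨z, hz, hz0⟩ | h4
    · exact absurd hz0 (h1 i z hz)
    · exact h4
  choose r S hr0 hrd hrh hS hSp hloc using h3
  have h4 : ∀ i : {i // i ∈ Finset.univ.erase i'},
      ∃ r' : MvPolynomial {i // i ∈ Finset.univ.erase i'} K, r' ≠ 0 ∧
      (∀ k, degreeOf k r' ≤ wU D' i k) ∧ (∀ m, ∃ m', coeff m r' = coeff m' (r i)) ∧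
      ∀ x : σ → K, eval (fun i : {i // i ∈ Finset.univ.erase i'} => x i.1) r' =
        eval x (r i) := fun i => hRST K σ _ D' i (r i) (hr0 i) fun l => by
    refine (hrd i l).trans ?_
    split_ifs
    · exact hD2' i
    · exact le_rfl
  choose r' hr'0 hr'd hr'c hr'e using h4
  obtain ⟨hSS, hSSp⟩ := plc_prod' B hB S hS
  refine ⟨r', fun v => B v * ∏ i, S i v, hr'0, hr'd, fun i m => ?_, hSS, ?_, fun v i => ?_⟩
  · obtain ⟨m', hm'⟩ := hr'c i m
    rw [hm']
    exact (hrh i m').trans (mul_le_mul_of_nonneg_right (hC2' i) (by linarith))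
  · rw [hSSp, hC', add_mul, Finset.sum_mul]
    refine add_le_add ?_ (Finset.sum_le_sum fun i _ => hSp i)
    nlinarith
  · rw [hr'e i (xs (y k))]
    refine (hloc i v (xs (y k)) h2.2.2).trans ?_
    have ht0 : 0 ≤ (⨆ j, v (eval (xs (y k)) (f j))) / (∏ i, Mv v (xs (y k) i)) ^ D := by
      refine div_nonneg (Real.iSup_nonneg fun j => v.nonneg _) (pow_nonneg ?_ _)
      exact Finset.prod_nonneg fun i _ => (Mv_pos v _).le
    have hmax : max (v (eval (xs (y k)) (pp i)) /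
          (Mv v (xs (y k) i.1) * Mv v (xs (y k) (kk i))) ^ E)
        (v (eval (xs (y k)) (qq i)) / (Mv v (xs (y k) i.1) * Mv v (xs (y k) i')) ^ E) ≤
        B v * ((⨆ j, v (eval (xs (y k)) (f j))) / (∏ i, Mv v (xs (y k) i)) ^ D) :=
      max_le (hpp4 i v _) (hqq4 i v _)
    have hSi : (0 : ℝ) ≤ S i v := le_trans zero_le_one ((hS i).one_le v)
    have hBv : (0 : ℝ) ≤ B v := le_trans zero_le_one (hB.one_le v)
    have hMp : Mv v (xs (y k) i.1) ^ D2 i ≤ Mv v (xs (y k) i.1) ^ D' :=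
      pow_le_pow_right₀ (one_le_Mv v _) (hD2' i)
    have hM0 : (0 : ℝ) ≤ Mv v (xs (y k) i.1) ^ D2 i := pow_nonneg (Mv_pos v _).le _
    have hSle : S i v ≤ ∏ j, S j v := by
      have := Finset.prod_le_prod (s := Finset.univ)
        (f := fun j => if j = i then S i v else 1) (g := fun j => S j v)
        (fun j _ => by split_ifs <;> [exact hSi; exact zero_le_one])
        (fun j _ => by
          split_ifs with hj
          · rw [hj]
          · exact (hS j).one_le v)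
      rw [Finset.prod_ite_eq' Finset.univ i (fun _ => S i v), if_pos (Finset.mem_univ _)] at this
      exact this
    calc S i v * Mv v (xs (y k) i.1) ^ D2 i * _
        ≤ S i v * Mv v (xs (y k) i.1) ^ D2 i *
          (B v * ((⨆ j, v (eval (xs (y k)) (f j))) / (∏ i, Mv v (xs (y k) i)) ^ D)) :=
          mul_le_mul_of_nonneg_left hmax (mul_nonneg hSi hM0)
      _ ≤ (∏ j, S j v) * Mv v (xs (y k) i.1) ^ D' *
          (B v * ((⨆ j, v (eval (xs (y k)) (f j))) / (∏ i, Mv v (xs (y k) i)) ^ D)) := by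
          refine mul_le_mul_of_nonneg_right ?_ (mul_nonneg hBv ht0)
          exact mul_le_mul hSle hMp hM0 (hSi.trans hSle)
      _ = _ := by ring

end moving

end

end Pool.Agent.Helper60.T3
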