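import Pool.Agent.Helper60.T3.End4
import Pool.Agent.Helper60.HC.Main2

/-!
# Project T3: END, part 5 (P1M, the theorem)
-/

set_option autoImplicit false

open MvPolynomial Filter

namespace Pool.Agent.Helper60.T3

open WeierstrassCurve Height Height.AdmissibleAbsValues
open Pool.Agent.Helper29.BL Pool.Agent.Helper92.Ru Pool.Agent.Helper42.SG
open Pool.Agent.Helper5.UN (hv CodimGT cH)
open Pool.Agent.Helper60.HC (Lo Al xs nrs S_P1 S_P2 S_NORT S_LOR S_ELOC2 S_CHB S_QPI S_PRJ Bq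
  Bq_ne_zero eval_Bq)
open Pool.Agent.Helper92.SGE (QTR)
open Pool.Agent.Helper19.PM (cW wU AlW S_P1M)

noncomputable section

theorem PH_univ {K : Type} [Field K] [NumberField K] {τ : Type} [Fintype τ] [DecidableEq τ]
    (hPHC : S_PHC) (D : ℕ) (i : τ) (r : MvPolynomial τ K) (hd : ∀ k, degreeOf k r ≤ wU D i k)
    (A : ℝ) (hA : 0 ≤ A) (hh : ∀ m, logHeight₁ (coeff m r) ≤ A) :
    Real.log (PH r) ≤ (D + 1) * A := by
  classical
  refine (hPHC K τ r).trans ?_
  have h1 : ∑ m ∈ r.support, logHeight₁ (coeff m r) ≤ ∑ m ∈ r.support, A :=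
    Finset.sum_le_sum fun m _ => hh m
  refine h1.trans ?_
  rw [Finset.sum_const, nsmul_eq_mul]
  refine mul_le_mul_of_nonneg_right ?_ hA
  have h2 : r.support ⊆ (Finset.range (D + 1)).image (fun t => Finsupp.single i t) := by
    intro m hm
    rw [Finset.mem_image]
    refine ⟨m i, ?_, ?_⟩
    · have h3 := (monomial_le_degreeOf i hm).trans (hd i)
      unfold wU at h3
      rw [if_pos rfl] at h3
      exact Finset.mem_range.2 (by omega)
    · ext k
      by_cases hk : k = i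
      · rw [hk, Finsupp.single_eq_same]
      · have h3 := (monomial_le_degreeOf k hm).trans (hd k)
        unfold wU at h3
        rw [if_neg hk] at h3
        rw [Finsupp.single_apply, if_neg (Ne.symm hk)]
        omega
  have h3 := (Finset.card_le_card h2).trans Finset.card_image_le
  rw [Finset.card_range] at h3
  exact_mod_cast h3

section final

variable {K : Type} [Field K] [NumberField K] [DecidableEq K] {σ : Type} [Fintype σ]
  [DecidableEq σ] (W : σ → Affine K) (H : ∀ i, (W i).Point → ℝ) (D : ℕ) {ι : Type}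
  [Fintype ι] (f : ι → MvPolynomial σ K) (ε : ℝ) (y : ℕ → ∀ i, (W i).Point) (U : Ultrafilter ℕ)

theorem moving_false (hP1M : S_P1M) (hEXTR : S_EXTR) (hQTR : QTR) (hLOR : S_LOR) (hPHC : S_PHC)
    (hCWB : S_CWB) (hQ : IsQuad (nrs H)) (hW : ∀ i, (W i).IsElliptic) (c₀ : ℝ)
    (hH : ∀ i, CanH (W i) (H i) c₀) (hf : ∀ j i, degreeOf i (f j) ≤ D) (hε : 0 < ε)
    (hctx : Ctx H D f ε y U) (hcard : Fintype.card σ = 3)
    (i' : σ) (hFree : Free H y U (Finset.univ.erase i')) (D1 : ℕ) (h : ℕ → MvPolynomial σ K)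
    (hs : Surf H y U D1 h) (D' : ℕ) (C' : ℝ) (hD' : 1 ≤ D') (hC' : 0 ≤ C')
    (hmv : ∀ᶠ k in (U : Filter ℕ),
      ∃ (r : {i // i ∈ Finset.univ.erase i'} → MvPolynomial {i // i ∈ Finset.univ.erase i'} K)
        (S : AbsoluteValue K ℝ → ℝ), (∀ i, r i ≠ 0) ∧
        (∀ i k, degreeOf k (r i) ≤ wU D' i k) ∧
        (∀ i m, logHeight₁ (coeff m (r i)) ≤ C' * (1 + Real.log (PH (h k)))) ∧ PlC S ∧
        PS (fun v => Real.log (S v)) ≤ C' * (1 + Real.log (PH (h k))) ∧
        ∀ (v : AbsoluteValue K ℝ) (i : {i // i ∈ Finset.univ.erase i'}),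
          v (eval (fun i : {i // i ∈ Finset.univ.erase i'} => xs (y k) i.1) (r i)) ≤
            S v * Mv v (xs (y k) i.1) ^ D' *
              ((⨆ j, v (eval (xs (y k)) (f j))) / (∏ i, Mv v (xs (y k) i)) ^ D)) : False := by
  classical
  set I := Finset.univ.erase i' with hI
  have hIc : Fintype.card {i // i ∈ I} = 2 := by
    rw [Fintype.card_coe, hI, Finset.card_erase_of_mem (Finset.mem_univ _), Finset.card_univ,
      hcard]
  obtain ⟨n, D2, C2, θ, K1, hθ, hC2, h1⟩ := hP1M K {i // i ∈ I} (fun i => W i.1)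
    (fun i => hW i.1) (fun i => H i.1) c₀ (fun i => hH i.1) hIc D' 1 (ε / 4) hD' zero_le_one
    (by positivity)
  obtain ⟨η, hη, hlo⟩ := hFree D2
  set θs := min (1 / 8) θ with hθs
  have hθs0 : 0 < θs := lt_min (by norm_num) hθ
  have hθs8 : θs ≤ 1 / 8 := min_le_left _ _
  have hθs1 : θs ^ 2 ≤ θ := by
    have : θs ≤ θ := min_le_right _ _
    nlinarith
  set K1' := max 1 K1 with hK1'
  have hK11 : 1 ≤ K1' := le_max_left _ _
  set K0 := max (2 * K1') (2 * (C2 + 1) / η) with hK0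
  have hK00 : 2 * K1' ≤ K0 := le_max_left _ _
  have hK01 : 2 * (C2 + 1) / η ≤ K0 := le_max_right _ _
  have hK0p : 0 < K0 := by linarith
  -- heights of the surfaces
  have hlowA : ∀ C : ℝ, 0 ≤ C → ∀ η : ℝ, 0 < η → ∀ᶠ k in (U : Filter ℕ),
      C * (1 + Real.log (PH (h k))) ≤ η * nrs H (y k) := by
    intro C hC η hη
    filter_upwards [hs.low (η / (C + 1)) (by positivity)] with k hk
    have h1 := log_PH_nonneg (h k)
    have h2 : (C + 1) * (1 + Real.log (PH (h k))) ≤ (C + 1) * (η / (C + 1) * nrs H (y k)) :=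
      mul_le_mul_of_nonneg_left hk (by positivity)
    have e1 : (C + 1) * (η / (C + 1) * nrs H (y k)) = η * nrs H (y k) := by
      field_simp
    rw [e1] at h2
    nlinarith
  have hnl := free_no_low H D f ε y U hctx hFree D' 1 zero_le_one
    (fun k => (D' + 1) * C' * (1 + Real.log (PH (h k)))) (fun η hη =>
      hlowA ((D' + 1) * C') (by positivity) η hη)
  have hlow : ∀ᶠ i in (U : Filter ℕ), ∀ᶠ j in (U : Filter ℕ),
      C' * (1 + Real.log (PH (h j))) ≤ 1 / 2 * nrs H (y j) / nrs H (y i) := by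
    filter_upwards [hctx.big 1] with i hi
    have hi0 : 0 < nrs H (y i) := by linarith
    filter_upwards [hlowA C' hC' (1 / 2 / nrs H (y i)) (by positivity)] with j hj
    rwa [div_mul_eq_mul_div] at hj
  set GM : ℕ → Prop := fun k =>
      ∃ (r : {i // i ∈ I} → MvPolynomial {i // i ∈ I} K)
        (S : AbsoluteValue K ℝ → ℝ), (∀ i, r i ≠ 0) ∧
        (∀ i k, degreeOf k (r i) ≤ wU D' i k) ∧
        (∀ i m, logHeight₁ (coeff m (r i)) ≤ C' * (1 + Real.log (PH (h k)))) ∧ PlC S ∧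
        PS (fun v => Real.log (S v)) ≤ C' * (1 + Real.log (PH (h k))) ∧
        ∀ (v : AbsoluteValue K ℝ) (i : {i // i ∈ I}),
          v (eval (fun i : {i // i ∈ I} => xs (y k) i.1) (r i)) ≤
            S v * Mv v (xs (y k) i.1) ^ D' *
              ((⨆ j, v (eval (xs (y k)) (f j))) / (∏ i, Mv v (xs (y k) i)) ^ D) with hGM
  obtain ⟨g, hP, hR⟩ := hEXTR U
    (fun k => ((K0 ≤ nrs H (y k) ∧ ¬ Lo I D2 (η * nrs H (y k)) (xs (y k))) ∧
      (GM k ∧ C' * (1 + Real.log (PH (h k))) ≤ ε / 2 * nrs H (y k))) ∧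
      ¬ Lo I D' (1 * (1 + (D' + 1) * C' * (1 + Real.log (PH (h k))))) (xs (y k)))
    (fun i j => (K0 * nrs H (y i) ≤ nrs H (y j) ∧
      ∃ e : ℕ, nrs H ((2 ^ e) • y i - y j) ≤ θs ^ 2 * nrs H (y j)) ∧
      C' * (1 + Real.log (PH (h j))) ≤ 1 / 2 * nrs H (y j) / nrs H (y i))
    ((((hctx.big K0).and hlo).and (hmv.and (hlowA C' hC' (ε / 2) (half_pos hε)))).and hnl)
    (by
      filter_upwards [hctx.al θs K0 hθs0, hlow] with i h5 h6
      exact h5.and h6) (n + 2)
  -- the points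
  set xj : Fin (n + 1) → ∀ i, (W i).Point := fun j => y (g (j.val + 1)) with hxj
  have hjn : ∀ j : Fin (n + 1), j.val + 1 < n + 2 := fun j => by have := j.2; omega
  choose e he using fun j : Fin (n + 1) => (hR (j.val + 1) (n + 2) (hjn j) le_rfl).1.2
  have hgm : ∀ j : Fin (n + 1), GM (g (j.val + 1)) := fun j => (hP _ (hjn j).le).1.2.1
  choose r S hr0 hrd hrh hS hSp hloc using hgm
  set N0 := nrs H (y (g 0)) with hN0
  set T := nrs H (y (g (n + 2))) with hT
  have n0 : 0 < N0 := lt_of_lt_of_le hK0p (hP 0 (by omega)).1.1.1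
  have nT : 0 < T := lt_of_lt_of_le hK0p (hP (n + 2) le_rfl).1.1.1
  have hKj : ∀ j : Fin (n + 1), K0 ≤ nrs H (xj j) := fun j => (hP _ (hjn j).le).1.1.1
  have hnj : ∀ j : Fin (n + 1), 0 < nrs H (xj j) := fun j => lt_of_lt_of_le hK0p (hKj j)
  have h0j : ∀ j : Fin (n + 1), K0 * N0 ≤ nrs H (xj j) := fun j =>
    (hR 0 (j.val + 1) (by omega) (hjn j).le).1.1
  obtain ⟨hp, hAl⟩ := al_of2 hQTR H hQ D f θs K0 θ ε K1' hK11 hK00 hθs0.le hθs8 hθs1 hε (n + 1)
    xj (y (g (n + 2))) e (fun j => hctx.ex _) (hctx.ex _).1 hKj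
    (fun j => (hR (j.val + 1) (n + 2) (hjn j) le_rfl).1.1)
    (fun j j' hj => (hR (j.val + 1) (j'.val + 1) (by
      have : j.val < j'.val := hj
      omega) (hjn j').le).1.1) he
  have hAl' := hAl.mono nT.le le_rfl le_rfl (le_max_right 1 K1)
  have hxs : ∀ z : ∀ i, (W i).Point, (xs (fun i : {i // i ∈ I} => z i.1) : {i // i ∈ I} → K) =
      fun i : {i // i ∈ I} => xs z i.1 := fun z => rfl
  have hle : ∀ z : ∀ i, (W i).Point,
      nrs (fun i : {i // i ∈ I} => H i.1) (fun i => z i.1) ≤ nrs H z := by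
    intro z
    unfold nrs
    have e1 : ∑ i : {i // i ∈ I}, H i.1 (z i.1) = ∑ i ∈ I, H i (z i) :=
      Finset.sum_coe_sort I (fun i => H i (z i))
    show ∑ i : {i // i ∈ I}, H i.1 (z i.1) ≤ _
    rw [e1]
    exact Finset.sum_le_sum_of_subset_of_nonneg (Finset.subset_univ _)
      fun i _ _ => (hH i).quad.nonneg _
  -- some r_i does not vanish
  have hoff : ∀ j : Fin (n + 1), ∃ i, eval (fun i : {i // i ∈ I} => xs (xj j) i.1) (r j i) ≠ 0 := by
    intro j
    have hne : Nonempty {i // i ∈ I} := by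
      rw [← Fintype.card_pos_iff, hIc]; norm_num
    obtain ⟨i⟩ := hne
    refine ⟨i, fun h0 => ?_⟩
    refine (hP _ (hjn j).le).2 ?_
    have hl0 := log_PH_nonneg (h (g (j.val + 1)))
    have hph := PH_univ hPHC D' i (r j i) (hrd j i) (C' * (1 + Real.log (PH (h (g (j.val + 1))))))
      (by positivity) (hrh j i)
    refine (hLOR K σ (xs (y (g (j.val + 1))))).2.1 I D' _ ?_
    refine ⟨r j i, hr0 j i, fun k => (hrd j i k).trans ?_, fun k hk => absurd (Finset.mem_univ _) hk,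
      h0, hph.trans ?_⟩
    · unfold wU
      split_ifs
      · exact le_rfl
      · exact Nat.zero_le _
    · nlinarith
  -- the lower bound of cW
  have hcw : ∀ j : Fin (n + 1), ε / 2 * nrs H (xj j) ≤
      cW (wU D') (r j) (fun i : {i // i ∈ I} => xs (xj j) i.1) := by
    intro j
    have h5 := hCWB K σ D ι f hf I D' (r j) (S j) (xs (xj j)) (hS j) (hrd j) (hctx.ex _).2.1
      (hoff j) (hloc j)
    have h6 := (hctx.ex (g (j.val + 1))).2.2
    have h7 := (hP _ (hjn j).le).1.2.2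
    have h8 := hSp j
    have h6' : ε * nrs H (xj j) ≤ cH D f (xs (xj j)) := h6
    have h7' : C' * (1 + Real.log (PH (h (g (j.val + 1))))) ≤ ε / 2 * nrs H (xj j) := h7
    linarith
  set Q := T / N0 with hQd
  have hQpos : 0 < Q := div_pos nT n0
  have hQle : ∀ j, (4 : ℝ) ^ e j ≤ Q := by
    intro j
    have h5 := (hp j).2
    have h6 := h0j j
    have hq : (0 : ℝ) < 4 ^ e j := by positivity
    rw [hQd, le_div_iff₀ n0]
    have h7 : (4 : ℝ) ^ e j * (K0 * N0) ≤ 4 / 3 * T :=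
      (mul_le_mul_of_nonneg_left h6 hq.le).trans h5
    have h8 : 2 ≤ K0 := by linarith
    have h9 : (4 : ℝ) ^ e j * N0 * 2 ≤ 4 ^ e j * N0 * K0 :=
      mul_le_mul_of_nonneg_left h8 (by positivity)
    nlinarith
  have hK1Q : K1 * Q ≤ T := by
    have h5 : K1 ≤ N0 := by
      have h6 := (hP 0 (by omega)).1.1.1
      have h7 : K1 ≤ K1' := le_max_right _ _
      linarith
    rw [hQd, ← mul_div_assoc, div_le_iff₀ n0]
    nlinarith
  have hQe : ∀ j, 3 / 4 * (nrs H (xj j) / N0) ≤ Q / 4 ^ e j ∧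
      Q / 4 ^ e j ≤ 4 / 3 * (nrs H (xj j) / N0) := by
    intro j
    have hq : (0 : ℝ) < 4 ^ e j := by positivity
    obtain ⟨h5, h6⟩ := hp j
    have hNq : 0 < N0 * 4 ^ e j := mul_pos n0 hq
    constructor
    · rw [hQd, div_div, ← mul_div_assoc, div_le_div_iff₀ n0 hNq]
      have h7 : 3 / 4 * (4 ^ e j * nrs H (xj j)) ≤ T := by linarith
      calc 3 / 4 * nrs H (xj j) * (N0 * 4 ^ e j)
          = 3 / 4 * (4 ^ e j * nrs H (xj j)) * N0 := by ring
        _ ≤ T * N0 := mul_le_mul_of_nonneg_right h7 n0.le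
    · rw [hQd, div_div, ← mul_div_assoc, div_le_div_iff₀ hNq n0]
      have h7 : T ≤ 4 / 3 * (4 ^ e j * nrs H (xj j)) := by linarith
      calc T * N0 ≤ 4 / 3 * (4 ^ e j * nrs H (xj j)) * N0 :=
            mul_le_mul_of_nonneg_right h7 n0.le
        _ = 4 / 3 * nrs H (xj j) * (N0 * 4 ^ e j) := by ring
  have hAlW : AlW (fun i : {i // i ∈ I} => H i.1) (wU D') (n + 1) r θ (ε / 4) K1
      (fun j i => xj j i.1) (fun i => y (g (n + 2)) i.1) e T Q := by
    refine ⟨fun j i => hAl'.nd j i.1, fun i => hAl'.nd0 i.1, fun j => ?_,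
      (hle (y (g (n + 2)))).trans hAl'.up0, fun j => ?_, fun j => ?_, fun j => ?_,
      fun j => hAl'.big j, hQle, hK1Q, fun j j' hj => hAl'.grow j j' hj⟩
    · exact (mul_le_mul_of_nonneg_left (hle _) (by positivity)).trans (hAl'.up j)
    · exact (hle ((2 ^ e j) • xj j - y (g (n + 2)))).trans (hAl'.near j)
    · rw [hxs]
      have h5 := hcw j
      have h6 := (hp j).1
      have hq : (0 : ℝ) < 4 ^ e j := by positivity
      have h7 := mul_le_mul_of_nonneg_left h5 hq.le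
      have h8 := mul_le_mul_of_nonneg_left h6 hε.le
      nlinarith
    · rw [hxs]
      exact hoff j
  have hch : ∀ j i m, logHeight₁ (coeff m (r j i)) ≤ 1 * (Q / 4 ^ e j) := by
    intro j i m
    refine (hrh j i m).trans ?_
    have h5 := (hR 0 (j.val + 1) (by omega) (hjn j).le).2
    have h6 := (hQe j).1
    have h7 : C' * (1 + Real.log (PH (h (g (j.val + 1))))) ≤ 1 / 2 * nrs H (xj j) / N0 := h5
    have h8 : 0 ≤ nrs H (xj j) / N0 := div_nonneg (hnj j).le n0.le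
    rw [mul_div_assoc] at h7
    linarith
  have hfin : ∀ (a : ℝ), 0 ≤ a → C2 * (4 / 3 * (a / N0)) ≤ η * a := by
    intro a ha
    have h5 : 2 * (C2 + 1) / η ≤ N0 := hK01.trans (hP 0 (by omega)).1.1.1
    rw [div_le_iff₀ hη] at h5
    have h6 : C2 * (4 / 3) / N0 ≤ η := by
      rw [div_le_iff₀ n0]
      nlinarith
    calc C2 * (4 / 3 * (a / N0)) = C2 * (4 / 3) / N0 * a := by ring
      _ ≤ η * a := mul_le_mul_of_nonneg_right h6 ha
  rcases h1 r _ _ e T Q hAlW hr0 hrd hch with ⟨j, hj⟩ | hj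
  · rw [hxs] at hj
    have h5 := (hLOR K σ (xs (xj j))).2.1 I D2 _ hj
    refine (hP _ (hjn j).le).1.1.2 ?_
    refine (hLOR K σ _).1 _ _ _ _ _ _ subset_rfl le_rfl ?_ h5
    exact (mul_le_mul_of_nonneg_left (hQe j).2 hC2).trans (hfin _ (hnj j).le)
  · rw [hxs] at hj
    have h5 := (hLOR K σ (xs (y (g (n + 2))))).2.1 I D2 _ hj
    refine (hP (n + 2) le_rfl).1.1.2 ?_
    refine (hLOR K σ _).1 _ _ _ _ _ _ subset_rfl le_rfl ?_ h5
    have h6 := hfin T nT.le
    have h7 : C2 * Q ≤ C2 * (4 / 3 * (T / N0)) := by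
      refine mul_le_mul_of_nonneg_left ?_ hC2
      rw [← hQd]
      linarith
    exact h7.trans h6

end final

/-- **END** -/
theorem main3_of (hcan : CAN) (hEUP : EUP) (hP1 : S_P1) (hP2 : S_P2) (hP3 : S_P3)
    (hP1M : S_P1M) (hPRJ : S_PRJ) (hNORT : S_NORT) (hLOR : S_LOR) (hQPI : S_QPI)
    (hCHB : S_CHB) (hELOC2 : S_ELOC2) (hQTR : QTR) (hULT : S_ULT) (hEXTR : S_EXTR)
    (hFACT : S_FACT) (hRESL : S_RESL) (hHTF : S_HTF) (hMOV : S_MOV) (hLEAFC : S_LEAFC)
    (hRST : S_RST) (hPHC : S_PHC) (hCWB : S_CWB) : S_MAIN3 := by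
  classical
  intro K _ _ _ σ _ _ W hW Γ hΓ D ι _ f hf hc hcard ε hε
  have hxn : ∀ z : ∀ i, (W i).Point, 0 ≤ ∑ i, hx (z i) := fun z =>
    Finset.sum_nonneg fun i _ => by
      unfold hx
      exact Height.zero_le_logHeight₁ _
  have hcan' : ∀ i, ∃ (H : (W i).Point → ℝ) (c : ℝ), CanH (W i) H c := fun i => by
    have := hW i
    exact hcan K (W i)
  choose H c hH0 using hcan'
  have hcn : ∀ i, 0 ≤ c i := fun i => (abs_nonneg _).trans ((hH0 i).near 0)
  set c₀ := ∑ i, c i with hc₀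
  have hc0 : 0 ≤ c₀ := Finset.sum_nonneg fun i _ => hcn i
  have hH : ∀ i, CanH (W i) (H i) c₀ := fun i =>
    canH_mono (hH0 i) (Finset.single_le_sum (fun j _ => hcn j) (Finset.mem_univ i))
  have hQ : IsQuad (nrs H) := hQPI.1 σ (fun i => (W i).Point) H fun i => (hH i).quad
  obtain ⟨cB, hcB, hB⟩ := hCHB K σ D ι f hf
  -- a polynomial off which the f_j have no common zero
  obtain ⟨G0, hG0, hG0f⟩ : ∃ G : MvPolynomial σ K, G ≠ 0 ∧
      ∀ x : σ → K, eval x G ≠ 0 → ∃ j, eval x (f j) ≠ 0 := by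
    obtain ⟨E, J, _, f', G, c', -, -, hG, -, hl⟩ := hPRJ K σ 1 D ι f hf hc Finset.univ
      (by rw [Finset.card_univ]) (by rw [Finset.card_univ, hcard]; norm_num)
    exact ⟨G, hG, fun x hx => (hl x hx).2.1⟩
  set Z0 := G0 * ∏ i, Bq W i with hZ0
  have hZ00 : Z0 ≠ 0 := mul_ne_zero hG0 (Finset.prod_ne_zero_iff.2 fun i _ => Bq_ne_zero W i)
  have hZ0e : ∀ x : σ → K, eval x Z0 ≠ 0 → (∃ j, eval x (f j) ≠ 0) ∧ ∀ i, Bf (W i) (x i) ≠ 0 := by
    intro x hx
    rw [hZ0, map_mul, map_prod] at hx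
    refine ⟨hG0f x (left_ne_zero_of_mul hx), fun i => ?_⟩
    have := Finset.prod_ne_zero_iff.1 (right_ne_zero_of_mul hx) i (Finset.mem_univ _)
    rwa [eval_Bq] at this
  have hnd : ∀ z : ∀ i, (W i).Point, (∀ i, z i ≠ 0) → (∀ i, Bf (W i) (xs z i) ≠ 0) →
      ∀ i, z i ≠ 0 ∧ ps (z i) ≠ 0 := by
    intro z hz hb i
    refine ⟨hz i, fun h0 => hb i ?_⟩
    have := hW i
    have := (hEUP K (W i)).1 (z i) (hz i)
    rw [h0] at this
    show Bf (W i) (xc (z i)) = 0
    rw [← this]; ring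
  set Ex : (∀ i, (W i).Point) → Prop := fun z => (∀ i, z i ≠ 0 ∧ ps (z i) ≠ 0) ∧
    (∃ t, eval (xs z) (f t) ≠ 0) ∧ ε * nrs H z ≤ cH D f (xs z) with hEx
  by_cases hU : ∀ (Z : MvPolynomial σ K) (R : ℝ), Z ≠ 0 →
      ∃ z ∈ AddSubgroup.pi Set.univ Γ, Ex z ∧ eval (xs z) Z ≠ 0 ∧ R ≤ nrs H z
  · exfalso
    obtain ⟨y, U, hy, hgen, hbig, hal⟩ := hULT K σ (∀ i, (W i).Point)
      (AddSubgroup.pi Set.univ Γ) (hQPI.2 σ (fun i => (W i).Point) Γ hΓ) (nrs H) hQ xs Ex hU
    have hctx : Ctx H D f ε y U := ⟨fun k => (hy k).2, hgen, hbig, hal⟩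
    have hnf := not_free_univ W hW H c₀ hH D ι f hf hc ε hε y U hctx hP1 hEXTR hQTR hQ
      (by omega)
    obtain ⟨I, hI2, hIf⟩ := free_of_card W hW H c₀ hH D ι f hf hc ε hε y U hctx hP2 hEXTR hQTR
      hNORT hLOR hQ hcard
    obtain ⟨i', hi'⟩ : ∃ i', I = Finset.univ.erase i' := by
      have h1 : (Finset.univ \ I).card = 1 := by
        rw [Finset.card_sdiff_of_subset (Finset.subset_univ _), Finset.card_univ, hcard, hI2]
      obtain ⟨i', hi'⟩ := Finset.card_eq_one.1 h1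
      refine ⟨i', ?_⟩
      rw [← Finset.sdiff_singleton_eq_erase, ← hi', Finset.sdiff_sdiff_eq_self
        (Finset.subset_univ _)]
    rw [hi'] at hIf
    obtain ⟨D1, h, hs⟩ := exists_surf H D f ε y U hFACT hctx hnf
    have hag := slopes_agree W H D f ε y U hP3 hEXTR hQTR hNORT hQ hW c₀ hH hf hc hε hctx hcard i'
      hIf D1 h hs
    obtain ⟨n, hn, hflat⟩ := exists_flat W H D f ε y U hRESL hHTF hW hEUP hctx i' hIf D1 h hs hag
    obtain ⟨D', C', hD', hC', hmv⟩ := exists_moving W H D f ε y U hMOV hLEAFC hELOC2 hRST hW hf hc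
      hctx hcard i' D1 h hs n hn hflat
    exact moving_false W H D f ε y U hP1M hEXTR hQTR hLOR hPHC hCWB hQ hW c₀ hH hf hε hctx hcard
      i' hIf D1 h hs D' C' hD' hC' hmv
  · push Not at hU
    obtain ⟨Z, R, hZ, hR⟩ := hU
    refine ⟨Z * Z0, D * (max R 0 + Fintype.card σ * c₀) + cB + ε * (Fintype.card σ * c₀),
      mul_ne_zero hZ hZ00, by positivity, fun z hz hz0 hzZ => ?_⟩
    rw [map_mul] at hzZ
    have hz1 := left_ne_zero_of_mul hzZ
    obtain ⟨hz2, hz3⟩ := hZ0e _ (right_ne_zero_of_mul hzZ)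
    have hh1 : ∑ i, hx (z i) ≤ nrs H z + Fintype.card σ * c₀ := by
      have : ∑ i, hx (z i) ≤ ∑ i, (H i (z i) + c₀) := Finset.sum_le_sum fun i _ => by
        have := abs_le.1 ((hH i).near (z i))
        linarith
      rw [Finset.sum_add_distrib, Finset.sum_const, Finset.card_univ, nsmul_eq_mul] at this
      exact this
    have hh2 : nrs H z ≤ ∑ i, hx (z i) + Fintype.card σ * c₀ := by
      have : nrs H z ≤ ∑ i, (hx (z i) + c₀) := Finset.sum_le_sum fun i _ => by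
        have := abs_le.1 ((hH i).near (z i))
        linarith
      rw [Finset.sum_add_distrib, Finset.sum_const, Finset.card_univ, nsmul_eq_mul] at this
      exact this
    have hn0 : (0 : ℝ) ≤ Fintype.card σ * c₀ := by positivity
    by_cases hE : ε * nrs H z ≤ cH D f (xs z)
    · have h3 : nrs H z < R := hR z (by
        rw [AddSubgroup.mem_pi]
        exact fun i _ => hz i) ⟨hnd z hz0 hz3, hz2, hE⟩ hz1
      have h4 := (hB (xs z) hz2).1
      have h5 : (D : ℝ) * ∑ i, logHeight₁ (xs z i) ≤ D * (max R 0 + Fintype.card σ * c₀) := by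
        refine mul_le_mul_of_nonneg_left ?_ (Nat.cast_nonneg _)
        have e1 : ∑ i, logHeight₁ (xs z i) = ∑ i, hx (z i) := rfl
        rw [e1]
        linarith [le_max_left R 0]
      have h6 : 0 ≤ ε * ∑ i, hx (z i) := mul_nonneg hε.le (hxn z)
      have h7 : 0 ≤ ε * (Fintype.card σ * c₀) := mul_nonneg hε.le hn0
      linarith
    · push Not at hE
      have h3 := mul_le_mul_of_nonneg_left hh2 hε.le
      have h4 : 0 ≤ (D : ℝ) * (max R 0 + Fintype.card σ * c₀) :=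
        mul_nonneg (Nat.cast_nonneg _) (add_nonneg (le_max_right _ _) hn0)
      rw [mul_add] at h3
      linarith

end

end Pool.Agent.Helper60.T3
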