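import Pool.Agent.Helper60.T3.Defs

/-!
# Project T3 (MP_a41896_nt): small goals of the assembly END, part 2
-/

set_option autoImplicit false

open MvPolynomial

namespace Pool.Agent.Helper60.T3

open WeierstrassCurve Height Height.AdmissibleAbsValues
open Pool.Agent.Helper29.BL Pool.Agent.Helper92.Ru Pool.Agent.Helper42.SG
open Pool.Agent.Helper5.UN (hv CodimGT cH)
open Pool.Agent.Helper60.HC (Lo Al xs nrs)
open Pool.Agent.Helper19.PM (cW rhoW wU)

noncomputable section

/-- the polynomial `n_k B_i (∂_i h)² - n_i B_k (∂_k h)²` -/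
def gsl {K : Type} [Field K] {σ : Type} (W : σ → Affine K) (n : σ → K) (h : MvPolynomial σ K)
    (i k : σ) : MvPolynomial σ K :=
  C (n k) * (Polynomial.aeval (X i) (bch W (fun _ => true) i) * pderiv i h ^ 2) -
    C (n i) * (Polynomial.aeval (X k) (bch W (fun _ => true) k) * pderiv k h ^ 2)

/-- **HTF**: heights of derivatives and of the polynomials `gsl`. Hypothesis allowed: MC.
PROOF. Replace `h` by `h / c`, `c` a nonzero coefficient (MC (3); `pderiv` is linear, `gsl` is homogeneous of degree `2` in `h`): `mc v h ≥ 1`. The coefficients of `pderiv i h` are integers `≤ D` times coefficients of `h`: `v(..) ≤ B v * mc v h` with a place constant `B` (`1` at the nonarchimedean places, `D` at the archimedean ones);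
those of `gsl` are sums of a bounded number of products of two coefficients of `h`, integers `≤ D²`, the `n_i` and the coefficients of `B_i`: `v(..) ≤ B v * (mc v h)^2`. MC (2) with `S v = B v * (mc v h)^2` and MC (1): `log PH ≤ PS (log B) + 2 log PH h`. DEGREES: `pderiv` does not increase the degrees, `B_i` has degree `3` in `X_i`. -/
def S_HTF : Prop :=
  ∀ (K : Type) [Field K] [NumberField K] (σ : Type) [Fintype σ] [DecidableEq σ]
    (W : σ → Affine K) (D : ℕ) (n : σ → K), ∃ C : ℝ, 0 ≤ C ∧ ∀ h : MvPolynomial σ K, h ≠ 0 →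
      (∀ l, h.degreeOf l ≤ D) → ∀ i k : σ,
      (pderiv i h ≠ 0 → (∀ l, (pderiv i h).degreeOf l ≤ D) ∧
        Real.log (PH (pderiv i h)) ≤ C * (1 + Real.log (PH h))) ∧
      (gsl W n h i k ≠ 0 → (∀ l, (gsl W n h i k).degreeOf l ≤ 2 * D + 3) ∧
        Real.log (PH (gsl W n h i k)) ≤ C * (1 + Real.log (PH h)))

/-- **PHC**: the height of a polynomial is at most the product of the heights of its coefficients. No hypotheses.
PROOF. At every place `max_m v(c_m) ≤ ∏_m max 1 (v(c_m))` (over the support), product over the places (`Height.mulHeight`, `mulHeight₁`), logarithms. -/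
def S_PHC : Prop :=
  ∀ (K : Type) [Field K] [NumberField K] (σ : Type) (r : MvPolynomial σ K),
    Real.log (PH r) ≤ ∑ m ∈ r.support, logHeight₁ (coeff m r)

/-- **RST**: polynomials in one variable, restricted to the coordinates of `I`. No hypotheses.
PROOF. `vars r ⊆ {i}` (`degreeOf = 0` iff not in `vars`), so `r = rename Subtype.val r'` (`exists_rename_eq_of_vars_subset_range`), `Subtype.val` is injective: `degreeOf_rename_of_injective`, `coeff_rename_mapDomain`, `eval_rename`. -/
def S_RST : Prop :=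
  ∀ (K : Type) [Field K] (σ : Type) [Fintype σ] [DecidableEq σ] (I : Finset σ) (D : ℕ)
    (i : {i // i ∈ I}) (r : MvPolynomial σ K), r ≠ 0 →
    (∀ l, r.degreeOf l ≤ if l = i.1 then D else 0) →
    ∃ r' : MvPolynomial {i // i ∈ I} K, r' ≠ 0 ∧ (∀ k, degreeOf k r' ≤ wU D i k) ∧
      (∀ m, ∃ m', coeff m r' = coeff m' r) ∧
      ∀ x : σ → K, eval (fun i : {i // i ∈ I} => x i.1) r' = eval x r

/-- **CWB**: comparison of `cH` with `cW` of a univariate centre. Hypothesis allowed: CHB (`Helper60.HC.S_CHB`); landed CHW-type lemma of `Helper19/PM`.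
PROOF. `x_I` the restriction. At every `v`: `rhoW (wU D') r v x_I = min 1 (max_i v(r_i(x_I)) / M_v(x_i)^(D'))` (`∏_k M_v(x_k)^(wU D' i k) = M_v(x_i)^(D')`) `≤ min 1 (S_v t_v)`, `t_v = max_j v(f_j(x)) / (∏ M_v(x_i))^D`, and `min 1 (S t) ≤ S min 1 t` (`S ≥ 1`), so `- log rhoW ≥ - log (rhs f D v x) - log S_v` (`rhoW > 0` because some `r_i(x_I) ≠ 0`; `rhs` is the
`min 1 t_v` of `Helper60.HC`). Sum over the places: CHB gives `FS` and `PS (log rhs) = - cH D f x`; `FS` for `log rhoW`: all but finitely many nonarchimedean `v` have `v(x_i) ≤ 1`, all coefficients of the `r_i` of absolute value `≤ 1` and `v(r_i(x_I)) = 1` for one `i`. `PS_add`, `PS_mono`. -/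
def S_CWB : Prop :=
  ∀ (K : Type) [Field K] [NumberField K] (σ : Type) [Fintype σ] [DecidableEq σ] (D : ℕ)
    (ι : Type) [Fintype ι] (f : ι → MvPolynomial σ K), (∀ j i, degreeOf i (f j) ≤ D) →
    ∀ (I : Finset σ) (D' : ℕ) (r : {i // i ∈ I} → MvPolynomial {i // i ∈ I} K)
      (S : AbsoluteValue K ℝ → ℝ) (x : σ → K), PlC S →
      (∀ i k, degreeOf k (r i) ≤ wU D' i k) → (∃ j, eval x (f j) ≠ 0) →
      (∃ i, eval (fun i : {i // i ∈ I} => x i.1) (r i) ≠ 0) →
      (∀ (v : AbsoluteValue K ℝ) (i : {i // i ∈ I}),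
        v (eval (fun i : {i // i ∈ I} => x i.1) (r i)) ≤ S v * Mv v (x i.1) ^ D' *
          ((⨆ j, v (eval x (f j))) / (∏ i, Mv v (x i)) ^ D)) →
      cH D f x ≤ cW (wU D') r (fun i : {i // i ∈ I} => x i.1) + PS (fun v => Real.log (S v))

end

end Pool.Agent.Helper60.T3
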